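import Pool.Agent.V1172.GD.Strong
import Pool.Agent.V1172.GP.Sup

set_option autoImplicit false

/-! Superpositions, weak type with a real exponent. -/

namespace Pool.Agent.V1172.GD

open MeasureTheory Set Metric Complex
open Pool.Agent.V1172.GP (Top Ker Top_meas T_tsum T_enorm0)
open scoped ENNReal NNReal

variable {X Z : Type*} [MeasurableSpace X] [MeasurableSpace Z]
variable {μ : Measure X} {ν : Measure Z} {k : Z → X → ℂ} {ρ : Z → ℝ} {K : ℝ}

/-- integrals of a function of weak type `P` over sets -/
lemma K1 {P : ℝ} (hP : 2 ≤ P) {u : Z → ℝ} (hu : Measurable u) (hu0 : ∀ x, 0 ≤ u x) {b C : ℝ} (hb : 0 ≤ b)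
    (hC : 0 ≤ C) (H : ∀ lam : ℝ, 0 < lam → ν {x | lam < u x} ≤ ENNReal.ofReal (C * b ^ P / lam ^ P))
    (A : Set Z) {κ : ℝ} (hκ : 0 < κ) :
    ∫⁻ x in A, ENNReal.ofReal (u x) ∂ν ≤
      ENNReal.ofReal (κ * b) * ν A + ENNReal.ofReal (2 * C * b * κ ^ (1 - P)) := by
  rcases hb.eq_or_lt with hb0 | hb0
  · have h1 : ∫⁻ x, ENNReal.ofReal (u x) ∂ν = 0 := by
      rw [lintegral_eq_lintegral_meas_lt ν (Filter.Eventually.of_forall hu0) hu.aemeasurable]
      rw [← nonpos_iff_eq_zero]
      refine (setLIntegral_mono' (g := fun _ => 0) measurableSet_Ioi fun t ht => ?_).trans (by simp)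
      refine (H t ht).trans ?_
      rw [← hb0, Real.zero_rpow (by linarith)]
      simp
    refine (setLIntegral_le_lintegral _ _).trans ?_
    rw [h1]
    exact zero_le
  set τ : ℝ := κ * b with hτ
  have hτ0 : 0 < τ := by positivity
  set v : Z → ℝ := fun x => max (u x - τ) 0 with hv
  have hvm : Measurable v := (hu.sub_const τ).max measurable_const
  have hvset : ∀ t : ℝ, 0 < t → {x | t < v x} ⊆ {x | t + τ < u x} := fun t ht x hx => by
    have h1 : t < max (u x - τ) 0 := hx
    rcases lt_max_iff.1 h1 with h | h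
    · show t + τ < u x
      linarith
    · exact absurd h (not_lt.2 ht.le)
  have hv1 : ∫⁻ x, ENNReal.ofReal (v x) ∂ν ≤ ENNReal.ofReal (2 * C * b * κ ^ (1 - P)) := by
    have hv0 : 0 ≤ᵐ[ν] v := Filter.Eventually.of_forall fun x => le_max_right _ _
    rw [lintegral_eq_lintegral_meas_lt ν hv0 hvm.aemeasurable, ← Ioc_union_Ioi_eq_Ioi hτ0.le, lintegral_union measurableSet_Ioi
        Ioc_disjoint_Ioi_same]
    have e0 : b ^ P * τ ^ (1 - P) = b * κ ^ (1 - P) := by
      rw [hτ, Real.mul_rpow hκ.le hb, ← mul_assoc, mul_comm (b ^ P) (κ ^ (1 - P)), mul_assoc,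
        ← Real.rpow_add hb0, mul_comm]
      congr 1
      rw [show P + (1 - P) = 1 by ring, Real.rpow_one]
    have e3 : C * b ^ P * τ ^ (1 - P) + C * b ^ P * τ ^ (1 - P) = 2 * C * b * κ ^ (1 - P) := by
      rw [mul_assoc, e0]; ring
    rw [← e3, ENNReal.ofReal_add (by positivity) (by positivity)]
    refine add_le_add ?_ ?_
    · calc ∫⁻ t in Ioc 0 τ, ν {x | t < v x} ≤ ∫⁻ _t in Ioc 0 τ, ENNReal.ofReal (C * b ^ P / τ ^ P) := by
            refine setLIntegral_mono' measurableSet_Ioc fun t ht => ?_
            refine (measure_mono (hvset t ht.1)).trans ((H _ (by linarith [ht.1])).trans ?_)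
            apply ENNReal.ofReal_le_ofReal
            have h1 := ht.1
            have h2 : τ ^ P ≤ (t + τ) ^ P := Real.rpow_le_rpow hτ0.le (by linarith) (by linarith)
            have h3 : 0 < τ ^ P := by positivity
            gcongr
        _ = _ := by
            rw [setLIntegral_const, Real.volume_Ioc, ← ENNReal.ofReal_mul (by positivity)]
            congr 1
            rw [sub_zero, Real.rpow_sub hτ0, Real.rpow_one]
            ring
    · calc ∫⁻ t in Ioi τ, ν {x | t < v x} ≤ ∫⁻ t in Ioi τ, ENNReal.ofReal (C * b ^ P * t ^ (-P)) := by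
            refine setLIntegral_mono' measurableSet_Ioi fun t ht => ?_
            have ht0 : (0 : ℝ) < t := hτ0.trans ht
            refine (measure_mono (hvset t ht0)).trans ((H _ (by linarith)).trans ?_)
            apply ENNReal.ofReal_le_ofReal
            have h2 : t ^ P ≤ (t + τ) ^ P := Real.rpow_le_rpow ht0.le (by linarith) (by linarith)
            have h3 : 0 < t ^ P := by positivity
            rw [Real.rpow_neg ht0.le, ← div_eq_mul_inv]
            gcongr
        _ = ENNReal.ofReal (∫ t in Ioi τ, C * b ^ P * t ^ (-P)) := by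
            rw [ofReal_integral_eq_lintegral_ofReal]
            · exact (integrableOn_Ioi_rpow_of_lt (by linarith) hτ0).const_mul _
            · refine (ae_restrict_mem measurableSet_Ioi).mono fun t ht => ?_
              have ht0 : (0 : ℝ) < t := hτ0.trans ht
              simp only [Pi.zero_apply]
              positivity
        _ ≤ _ := by
            apply ENNReal.ofReal_le_ofReal
            rw [integral_const_mul, integral_Ioi_rpow_of_lt (by linarith) hτ0]
            have h4 : -τ ^ (-P + 1) / (-P + 1) ≤ τ ^ (1 - P) := by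
              rw [show -P + 1 = 1 - P by ring, neg_div, ← div_neg, show -(1 - P) = P - 1 by ring,
                div_le_iff₀ (by linarith)]
              have h5 : 0 < τ ^ (1 - P) := by positivity
              nlinarith
            gcongr
  calc ∫⁻ x in A, ENNReal.ofReal (u x) ∂ν ≤ ∫⁻ x in A, (ENNReal.ofReal τ + ENNReal.ofReal (v x)) ∂ν := by
        refine lintegral_mono fun x => ?_
        rw [← ENNReal.ofReal_add hτ0.le (le_max_right _ _)]
        apply ENNReal.ofReal_le_ofReal
        have : u x - τ ≤ v x := le_max_left _ _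
        linarith
    _ = ENNReal.ofReal τ * ν A + ∫⁻ x in A, ENNReal.ofReal (v x) ∂ν := by
        rw [lintegral_add_left measurable_const, setLIntegral_const]
    _ ≤ _ := by
        gcongr
        exact (setLIntegral_le_lintegral _ _).trans hv1

/-- **Superpositions, the endpoint.** -/
theorem sum_weak [SFinite μ] [SigmaFinite ν] (hk : Ker μ ν k ρ K) {P : ℝ} (hP : 2 ≤ P) {C : ℝ}
    (hC : 0 < C) {g : X → ℂ}
    {F : ℕ → X → ℂ} (hF : ∀ j, Measurable (F j))
    (hs : ∑' j, ∫⁻ x, ‖F j x‖ₑ ∂μ ≠ ∞) (hg : ∀ᵐ x ∂μ, g x = ∑' j, F j x)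
    {b : ℕ → ℝ} (hb0 : ∀ j, 0 ≤ b j)
    (hH : ∀ j, ∀ l : ℝ, 0 < l → ν {z | l < ‖Top μ k (F j) z‖} ≤ ENNReal.ofReal (C * b j ^ P / l ^ P))
    {S : ℝ} (hS : 0 < S) (hbS : ∑' j, ENNReal.ofReal (b j) ≤ ENNReal.ofReal S)
    {lam : ℝ} (hlam : 0 < lam) :
    ν {z | lam < ‖Top μ k g z‖} ≤ ENNReal.ofReal (2 * C * (2 * S / lam) ^ P) := by
  have hsum := fun z => T_tsum hk hF hs hg z
  set u : ℕ → Z → ℝ := fun j z => ‖Top μ k (F j) z‖ with hu
  have hum : ∀ j, Measurable (u j) := fun j => (Top_meas hk (hF j)).norm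
  -- the pointwise bound
  have hpt : ∀ z, ENNReal.ofReal ‖Top μ k g z‖ ≤ ∑' j, ENNReal.ofReal (u j z) := by
    intro z
    have h1 : ∑' j, ENNReal.ofReal (u j z) ≠ ∞ := by
      refine ne_top_of_le_ne_top hs (ENNReal.tsum_le_tsum fun j => ?_)
      simp only [hu]
      rw [ofReal_norm]
      exact T_enorm0 hk _ _
    have h2 : Summable fun j => ‖Top μ k (F j) z‖ := by
      have := ENNReal.summable_toReal h1
      refine this.congr fun j => ?_
      rw [ENNReal.toReal_ofReal (norm_nonneg _)]
    rw [← (hsum z).tsum_eq]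
    refine (ENNReal.ofReal_le_ofReal (norm_tsum_le_tsum_norm h2)).trans ?_
    rw [ENNReal.ofReal_tsum_of_nonneg (fun j => norm_nonneg _) h2]
  have hTgm : Measurable (Top μ k g) := by
    have : Top μ k g = fun z => ∑' j, Top μ k (F j) z := by
      ext z
      exact (hsum z).tsum_eq.symm
    rw [this]
    have h3 : ∀ z, Filter.Tendsto (fun n => ∑ j ∈ Finset.range n, Top μ k (F j) z)
        Filter.atTop (nhds (∑' j, Top μ k (F j) z)) := fun z =>
      (hsum z).summable.hasSum.tendsto_sum_nat
    refine measurable_of_tendsto_metrizable (fun n => ?_) (tendsto_pi_nhds.2 h3)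
    exact Finset.measurable_sum _ fun j _ => Top_meas hk (hF j)
  -- on sets of finite measure
  set A : ℕ → Set Z := fun n => {z | lam < ‖Top μ k g z‖} ∩ spanningSets ν n with hAn
  have hAm : ∀ n, MeasurableSet (A n) := fun n =>
    (measurableSet_lt measurable_const hTgm.norm).inter (measurableSet_spanningSets ν n)
  have hAf : ∀ n, ν (A n) ≠ ∞ := fun n =>
    ne_top_of_le_ne_top (measure_spanningSets_lt_top ν n).ne (measure_mono inter_subset_right)
  have hball : ∀ n, ν (A n) ≤ ENNReal.ofReal (2 * C * (2 * S / lam) ^ P) := by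
    intro n
    set κ : ℝ := lam / (2 * S) with hκ
    have hκ0 : 0 < κ := by positivity
    have h1 : ENNReal.ofReal lam * ν (A n) ≤ ENNReal.ofReal (lam / 2) * ν (A n) +
        ENNReal.ofReal (2 * C * S * κ ^ (1 - P)) := by
      calc ENNReal.ofReal lam * ν (A n) = ∫⁻ _z in A n, ENNReal.ofReal lam ∂ν := by
            rw [setLIntegral_const]
        _ ≤ ∫⁻ z in A n, ∑' j, ENNReal.ofReal (u j z) ∂ν := by
            refine setLIntegral_mono' (hAm n) fun z hz => ?_
            exact (ENNReal.ofReal_le_ofReal (le_of_lt hz.1)).trans (hpt z)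
        _ = ∑' j, ∫⁻ z in A n, ENNReal.ofReal (u j z) ∂ν := by
            rw [lintegral_tsum]
            exact fun j => (hum j).ennreal_ofReal.aemeasurable
        _ ≤ ∑' j, (ENNReal.ofReal (κ * b j) * ν (A n) +
            ENNReal.ofReal (2 * C * b j * κ ^ (1 - P))) :=
            ENNReal.tsum_le_tsum fun j => K1 hP (hum j) (fun z => norm_nonneg _) (hb0 j) hC.le (hH j)
              (A n) hκ0
        _ = ENNReal.ofReal κ * (∑' j, ENNReal.ofReal (b j)) * ν (A n) +
            ENNReal.ofReal (2 * C * κ ^ (1 - P)) * ∑' j, ENNReal.ofReal (b j) := by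
            rw [ENNReal.tsum_add, ENNReal.tsum_mul_right, ← ENNReal.tsum_mul_left,
              ← ENNReal.tsum_mul_left]
            congr 2
            · congr 1
              ext j
              rw [ENNReal.ofReal_mul hκ0.le]
            · ext j
              rw [← ENNReal.ofReal_mul (by positivity)]
              congr 1
              ring
        _ ≤ ENNReal.ofReal κ * ENNReal.ofReal S * ν (A n) +
            ENNReal.ofReal (2 * C * κ ^ (1 - P)) * ENNReal.ofReal S := by gcongr
        _ = _ := by
            have a1 : ENNReal.ofReal κ * ENNReal.ofReal S = ENNReal.ofReal (lam / 2) := by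
              rw [← ENNReal.ofReal_mul hκ0.le]
              congr 1
              rw [hκ]; field_simp
            have a2 : ENNReal.ofReal (2 * C * κ ^ (1 - P)) * ENNReal.ofReal S =
                ENNReal.ofReal (2 * C * S * κ ^ (1 - P)) := by
              rw [← ENNReal.ofReal_mul (by positivity)]
              congr 1
              ring
            rw [a1, a2]
    set V : ℝ := (ν (A n)).toReal with hV
    have hVe : ν (A n) = ENNReal.ofReal V := (ENNReal.ofReal_toReal (hAf n)).symm
    have hV0 : 0 ≤ V := ENNReal.toReal_nonneg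
    rw [hVe, ← ENNReal.ofReal_mul hlam.le, ← ENNReal.ofReal_mul (by positivity),
      ← ENNReal.ofReal_add (by positivity) (by positivity)] at h1
    have h2 := (ENNReal.ofReal_le_ofReal_iff (by positivity)).1 h1
    rw [hVe]
    apply ENNReal.ofReal_le_ofReal
    have h3 : 2 * C * S * κ ^ (1 - P) = lam / 2 * (2 * C * (2 * S / lam) ^ P) := by
      have e1 : κ = (2 * S / lam)⁻¹ := by
        rw [hκ, inv_div]
      have e2 : 0 < 2 * S / lam := by positivity
      rw [e1, Real.inv_rpow e2.le, ← Real.rpow_neg e2.le, show -(1 - P) = P - 1 by ring,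
        Real.rpow_sub e2, Real.rpow_one]
      field_simp
    rw [h3] at h2
    have h4 : lam / 2 * V ≤ lam / 2 * (2 * C * (2 * S / lam) ^ P) := by linarith
    exact le_of_mul_le_mul_left h4 (by positivity)
  have hun : {z : Z | lam < ‖Top μ k g z‖} = ⋃ n, A n := by
    rw [hAn]
    rw [← inter_iUnion, iUnion_spanningSets, inter_univ]
  have hmono : Monotone A := fun a b hab => inter_subset_inter_right _ (monotone_spanningSets ν hab)
  rw [hun, hmono.measure_iUnion]
  exact iSup_le hball

end Pool.Agent.V1172.GD
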