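import Pool.Agent.V1172.GD.Par
import Pool.Agent.V1172.GP.Sup
import Pool.Agent.V1172.GP.Fin

set_option autoImplicit false

/-! Densities whose level sets satisfy the dispersive estimate. -/

namespace Pool.Agent.V1172.GD

open MeasureTheory Set Metric Complex
open Pool.Agent.V1172.GP (Ker Top_meas cm cm_meas cm_enorm)
open scoped ENNReal NNReal

/-- the extension operator -/
noncomputable abbrev TT {n : ℕ} (g : (Fin n → ℝ) → ℂ) (z : (Fin n → ℝ) × ℝ) : ℂ :=
  Pool.Agent.V1172.GP.Top volume ker g z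

/-- the dispersive estimate with the constant `B` -/
def Disp {n : ℕ} (B : ℝ) (g : (Fin n → ℝ) → ℂ) : Prop :=
  ∀ z : (Fin n → ℝ) × ℝ, z.2 ≠ 0 → ‖TT g z‖ ≤ B / |z.2| ^ ((n : ℝ) / 2)

variable {n : ℕ}

/-- the data of one summand -/
structure Atm (B : ℝ) (φ : (Fin n → ℝ) → ℝ≥0) (m : (Fin n → ℝ) → ℂ) : Prop where
  pos : 0 < B
  mf : Measurable φ
  mm : Measurable m
  m1 : ∀ x, ‖m x‖ ≤ 1
  dp : ∀ s : ℝ≥0, 0 < s → Disp B ({y | s < φ y}.indicator m)

/-- decay of the truncations -/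
lemma Atm.dec {B : ℝ} {φ : (Fin n → ℝ) → ℝ≥0} {m : (Fin n → ℝ) → ℂ} (hA : Atm B φ m)
    (hfin : ∫⁻ x, φ x ≠ ∞) :
    Dec (volume : Measure (Fin n → ℝ)) ker (fun z => |z.2|) (2 / n) B φ m := by
  intro s z hz
  have hz' : z.2 ≠ 0 := abs_pos.1 hz
  have hB := hA.pos
  set D : ℝ := |z.2| ^ (1 / (2 / (n : ℝ))) with hD
  have hDe : |z.2| ^ ((n : ℝ) / 2) = D := by
    rw [hD, one_div_div]
  have hD0 : 0 < D := by positivity
  set H : (Fin n → ℝ) → ℝ → ℂ := fun x t => if t < φ x then ker z x * m x else 0 with hH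
  have hkm : Measurable (ker z) := (ker_cont.comp (continuous_const.prodMk continuous_id)).measurable
  have hHm : Measurable (Function.uncurry H) := by
    refine Measurable.ite ?_ ((hkm.comp measurable_fst).mul (hA.mm.comp measurable_fst)) measurable_const
    exact measurableSet_lt measurable_snd
      (measurable_coe_nnreal_real.comp (hA.mf.comp measurable_fst))
  have hHn : ∀ x t, ‖H x t‖ₑ ≤ (Iio ((φ x : ℝ≥0) : ℝ)).indicator 1 t := by
    intro x t
    simp only [hH]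
    by_cases h : t < φ x
    · rw [if_pos h, indicator_of_mem (show t ∈ Iio ((φ x : ℝ≥0) : ℝ) from h), enorm_mul, ← ofReal_norm,
        ker_norm, ENNReal.ofReal_one, one_mul, ← ofReal_norm, Pi.one_apply, ← ENNReal.ofReal_one]
      exact ENNReal.ofReal_le_ofReal (hA.m1 x)
    · rw [if_neg h]
      simp
  have hHi : Integrable (Function.uncurry H)
      ((volume : Measure (Fin n → ℝ)).prod (volume.restrict (Ioc (0 : ℝ) s))) := by
    refine ⟨hHm.aestronglyMeasurable, ?_⟩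
    rw [HasFiniteIntegral, lintegral_prod _ hHm.enorm.aemeasurable]
    refine lt_of_le_of_lt ?_ (lt_top_iff_ne_top.2 hfin)
    refine lintegral_mono fun x => ?_
    calc ∫⁻ t in Ioc (0 : ℝ) s, ‖Function.uncurry H (x, t)‖ₑ
        ≤ ∫⁻ t in Ioc (0 : ℝ) s, (Iio ((φ x : ℝ≥0) : ℝ)).indicator 1 t := lintegral_mono fun t => hHn x t
      _ = volume (Ioc (0 : ℝ) s ∩ Iio ((φ x : ℝ≥0) : ℝ)) := by
          rw [lintegral_indicator_one measurableSet_Iio, Measure.restrict_apply measurableSet_Iio, inter_comm]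
      _ ≤ volume (Ioo (0 : ℝ) (φ x)) := measure_mono fun t ht => ⟨ht.1.1, ht.2⟩
      _ = φ x := by rw [Real.volume_Ioo, sub_zero, ENNReal.ofReal_coe_nnreal]
  have h1 : TT (cm (fun x => min (φ x) s) m) z = ∫ t in Ioc (0 : ℝ) s, ∫ x, H x t := by
    rw [← integral_integral_swap hHi]
    unfold TT Pool.Agent.V1172.GP.Top
    congr 1
    ext x
    simp only [hH, cm]
    rw [Pool.Agent.V1172.GP.layer]
    ring
  have h2 : ∀ t ∈ Ioc (0 : ℝ) s, ‖∫ x, H x t‖ₑ ≤ ENNReal.ofReal (B / D) := by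
    intro t ht
    have ht0 : 0 < t.toNNReal := Real.toNNReal_pos.2 ht.1
    have e1 : (fun x => H x t) = fun x => ker z x * ({y | t.toNNReal < φ y}.indicator m) x := by
      ext x
      simp only [hH, indicator, mem_ofPred_eq, mul_ite, mul_zero]
      congr 1
      rw [← NNReal.coe_lt_coe, Real.coe_toNNReal _ ht.1.le]
    rw [e1]
    have h3 := hA.dp _ ht0 z hz'
    rw [hDe] at h3
    rw [← ofReal_norm]
    exact ENNReal.ofReal_le_ofReal h3
  have h4 : ‖TT (cm (fun x => min (φ x) s) m) z‖ₑ ≤ ENNReal.ofReal (B * s / D) := by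
    rw [h1]
    refine (enorm_integral_le_lintegral_enorm _).trans ((setLIntegral_mono' measurableSet_Ioc h2).trans ?_)
    rw [setLIntegral_const, Real.volume_Ioc, sub_zero, ← ENNReal.ofReal_mul (by positivity)]
    apply ENNReal.ofReal_le_ofReal
    apply le_of_eq
    ring
  rw [← ofReal_norm] at h4
  exact (ENNReal.ofReal_le_ofReal_iff (by positivity)).1 h4

/-- modulated densities -/
noncomputable def mdl (η : (Fin n → ℝ) × ℝ) (φ : (Fin n → ℝ) → ℝ≥0) (m : (Fin n → ℝ) → ℂ)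
    (x : Fin n → ℝ) : ℂ := ker η x * cm φ m x

lemma mdl_meas (η : (Fin n → ℝ) × ℝ) {φ : (Fin n → ℝ) → ℝ≥0} (hf : Measurable φ)
    {m : (Fin n → ℝ) → ℂ} (hm : Measurable m) : Measurable (mdl η φ m) :=
  (ker_cont.comp (continuous_const.prodMk continuous_id)).measurable.mul (cm_meas hf hm)

lemma mdl_enorm (η : (Fin n → ℝ) × ℝ) (φ : (Fin n → ℝ) → ℝ≥0) {m : (Fin n → ℝ) → ℂ}
    (hm1 : ∀ x, ‖m x‖ ≤ 1) (x : Fin n → ℝ) : ‖mdl η φ m x‖ₑ ≤ φ x := by
  rw [mdl, enorm_mul, ← ofReal_norm, ker_norm, ENNReal.ofReal_one, one_mul]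
  exact cm_enorm φ hm1 x

lemma TT_mdl (η : (Fin n → ℝ) × ℝ) (φ : (Fin n → ℝ) → ℝ≥0) (m : (Fin n → ℝ) → ℂ)
    (z : (Fin n → ℝ) × ℝ) : TT (mdl η φ m) z = TT (cm φ m) (z + η) := by
  unfold TT Pool.Agent.V1172.GP.Top
  congr 1
  ext x
  simp only [mdl, ker]
  rw [← mul_assoc, ← Complex.exp_add]
  congr 2
  simp only [Prod.fst_add, Prod.snd_add, Pi.add_apply, mul_add, Finset.sum_add_distrib]
  push_cast
  ring

lemma shift_mp (η : (Fin n → ℝ) × ℝ) :
    MeasurePreserving (fun z : (Fin n → ℝ) × ℝ => z + η) volume volume :=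
  (measurePreserving_add_right (volume : Measure (Fin n → ℝ)) η.1).prod
    (measurePreserving_add_right (volume : Measure ℝ) η.2)

/-- one modulated term, the endpoint -/
lemma atm_weak (hn : 0 < n) {B : ℝ} {φ : (Fin n → ℝ) → ℝ≥0} {m : (Fin n → ℝ) → ℂ} (hA : Atm B φ m)
    (hfin : ∫⁻ x, φ x ≠ ∞) (η : (Fin n → ℝ) × ℝ) {lam : ℝ} (hlam : 0 < lam) :
    volume {z | lam < ‖TT (mdl η φ m) z‖} ≤
      ENNReal.ofReal (32 * (4 * B) ^ (2 / (n : ℝ)) / lam ^ (2 + 2 / (n : ℝ))) *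
        ∫⁻ x, (φ x : ℝ≥0∞) ^ (2 + 2 / (n : ℝ)) := by
  have hB := hA.pos
  have hn0 : (0 : ℝ) < n := by exact_mod_cast hn
  obtain ⟨s, -, h1⟩ := weak (ker_ker n) (c := 2 / n) hB (by positivity) hA.mf hA.mm hA.m1 hfin
    (hA.dec hfin) hlam
  have e1 : {z | lam < ‖TT (mdl η φ m) z‖} = (fun z => z + η) ⁻¹' {z | lam < ‖TT (cm φ m) z‖} := by
    ext z
    simp only [mem_ofPred_eq, mem_preimage, TT_mdl]
  rw [e1, (shift_mp η).measure_preimage]
  · refine h1.trans (mul_le_mul' ?_ (lintegral_mono fun x => ?_))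
    · apply ENNReal.ofReal_le_ofReal
      apply le_of_eq
      ring
    · gcongr
      exact min_le_left _ _
  · exact (measurableSet_lt measurable_const
      (Top_meas (ker_ker n) (cm_meas hA.mf hA.mm)).norm).nullMeasurableSet

/-- one modulated term, the scaling line -/
lemma atm_strong (hn : 0 < n) {B : ℝ} {φ : (Fin n → ℝ) → ℝ≥0} {m : (Fin n → ℝ) → ℂ} (hA : Atm B φ m)
    (hfin : ∫⁻ x, φ x ≠ ∞) (η : (Fin n → ℝ) × ℝ) {p : ℝ} (hp : 2 + 2 / (n : ℝ) < p) :
    eLpNorm (TT (mdl η φ m)) (ENNReal.ofReal p) volume ≤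
      ENNReal.ofReal (16384 * (B ^ (2 / (n : ℝ)) / (p - 2 - 2 / n)) ^ (1 / p)) *
        (∫⁻ x, (φ x : ℝ≥0∞) ^ (p / (p - 1 - 2 / n))) ^ (1 / (p / (p - 1 - 2 / n))) := by
  have hB := hA.pos
  have hn0 : (0 : ℝ) < n := by exact_mod_cast hn
  have hn1 : (1 : ℝ) ≤ n := by exact_mod_cast hn
  set c : ℝ := 2 / (n : ℝ) with hc
  have hc0 : 0 < c := by positivity
  have hc2 : c ≤ 2 := by rw [hc, div_le_iff₀ hn0]; linarith
  have hp0 : 0 < p := by linarith
  have hp2 : 0 < p - 1 - c := by linarith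
  have hp3 : 0 < p - 2 - c := by linarith
  have h1 := strong (ker_ker n) (c := c) hB hc0 hA.mf hA.mm hA.m1 hfin (hA.dec hfin) hp
  rw [eLpNorm_eq_lintegral_rpow_enorm_toReal (by rw [ne_eq, ENNReal.ofReal_eq_zero]; linarith)
    ENNReal.ofReal_ne_top, ENNReal.toReal_ofReal hp0.le]
  have e1 : ∫⁻ z, ‖TT (mdl η φ m) z‖ₑ ^ p = ∫⁻ z, ‖TT (cm φ m) z‖ₑ ^ p := by
    simp only [TT_mdl]
    exact (shift_mp η).lintegral_comp (f := fun z => ‖TT (cm φ m) z‖ₑ ^ p)
      ((Top_meas (ker_ker n) (cm_meas hA.mf hA.mm)).enorm.pow_const p)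
  rw [e1]
  calc (∫⁻ z, ‖TT (cm φ m) z‖ₑ ^ p) ^ (1 / p)
      ≤ (ENNReal.ofReal (p * ((2 + c) * (16 * 2 * (4 * B) ^ c)) * (4 ^ (p - 2 - c) / (p - 2 - c))) *
        (∫⁻ x, (φ x : ℝ≥0∞) ^ (p / (p - 1 - c))) ^ (p - 1 - c)) ^ (1 / p) :=
        ENNReal.rpow_le_rpow h1 (by positivity)
    _ ≤ (ENNReal.ofReal (16384 ^ p * (B ^ c / (p - 2 - c))) *
        (∫⁻ x, (φ x : ℝ≥0∞) ^ (p / (p - 1 - c))) ^ (p - 1 - c)) ^ (1 / p) := by
        refine ENNReal.rpow_le_rpow (mul_le_mul' (ENNReal.ofReal_le_ofReal ?_) le_rfl) (by positivity)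
        have hp1 : 1 ≤ p := by linarith
        have a1 : p ≤ (2 : ℝ) ^ p := by
          have := one_add_mul_self_le_rpow_one_add (s := 1) (by norm_num) (p := p) hp1
          norm_num at this
          linarith
        have one_le : ∀ b : ℝ, 1 ≤ b → b ≤ b ^ p := fun b hb => by
          calc b = b ^ (1 : ℝ) := (Real.rpow_one b).symm
            _ ≤ b ^ p := Real.rpow_le_rpow_of_exponent_le hb hp1
        have a2 : 2 + c ≤ (4 : ℝ) ^ p := (by linarith : 2 + c ≤ 4).trans (one_le 4 (by norm_num))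
        have a3 : (16 * 2 : ℝ) ≤ 32 ^ p := (by norm_num : (16 * 2 : ℝ) ≤ 32).trans (one_le 32 (by norm_num))
        have a4 : (4 : ℝ) ^ c ≤ 16 ^ p := by
          calc (4 : ℝ) ^ c ≤ 4 ^ (2 : ℝ) := Real.rpow_le_rpow_of_exponent_le (by norm_num) hc2
            _ = 16 := by norm_num
            _ ≤ 16 ^ p := one_le 16 (by norm_num)
        have a5 : (4 : ℝ) ^ (p - 2 - c) ≤ 4 ^ p :=
          Real.rpow_le_rpow_of_exponent_le (by norm_num) (by linarith)
        calc p * ((2 + c) * (16 * 2 * (4 * B) ^ c)) * (4 ^ (p - 2 - c) / (p - 2 - c))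
            = (p * (2 + c) * (16 * 2) * 4 ^ c * 4 ^ (p - 2 - c)) * (B ^ c / (p - 2 - c)) := by
              rw [Real.mul_rpow (by norm_num) hB.le]
              ring
          _ ≤ (2 ^ p * 4 ^ p * 32 ^ p * 16 ^ p * 4 ^ p) * (B ^ c / (p - 2 - c)) := by gcongr
          _ = _ := by
              rw [← Real.mul_rpow (by norm_num) (by norm_num), ← Real.mul_rpow (by norm_num) (by norm_num),
                ← Real.mul_rpow (by norm_num) (by norm_num), ← Real.mul_rpow (by norm_num) (by norm_num)]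
              norm_num
    _ = _ := by
        rw [ENNReal.mul_rpow_of_nonneg _ _ (by positivity), ← ENNReal.rpow_mul,
          ENNReal.ofReal_rpow_of_nonneg (by positivity) (by positivity)]
        congr 2
        · rw [Real.mul_rpow (by positivity) (by positivity), ← Real.rpow_mul (by positivity),
            mul_one_div_cancel hp0.ne', Real.rpow_one]
        · field_simp

end Pool.Agent.V1172.GD
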