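import Pool.Agent.V1172.GD.Strong
import Pool.Agent.Helper160.MF.JL3mult

set_option autoImplicit false

/-! The `L²` estimate on slabs for the paraboloid. -/

namespace Pool.Agent.V1172.GD

open MeasureTheory Set Metric Complex
open Pool.Agent.Helper160.MF (Eu)
open Pool.Agent.V1172.GP (Top Ker Top_meas)
open scoped ENNReal NNReal FourierTransform RealInnerProductSpace

variable {ι : Type} [Fintype ι]

/-- the kernel -/
noncomputable def ker (z : (ι → ℝ) × ℝ) (x : ι → ℝ) : ℂ :=
  cexp (2 * Real.pi * I * ((∑ j, x j * z.1 j + (∑ j, x j ^ 2) * z.2 : ℝ) : ℂ))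

lemma ker_norm (z : (ι → ℝ) × ℝ) (x : ι → ℝ) : ‖ker z x‖ = 1 := by
  rw [ker, show 2 * (Real.pi : ℂ) * I * ((∑ j, x j * z.1 j + (∑ j, x j ^ 2) * z.2 : ℝ) : ℂ) =
    ((2 * Real.pi * (∑ j, x j * z.1 j + (∑ j, x j ^ 2) * z.2) : ℝ) : ℂ) * I by push_cast; ring,
    Complex.norm_exp_ofReal_mul_I]

lemma ker_cont : Continuous fun p : ((ι → ℝ) × ℝ) × (ι → ℝ) => ker p.1 p.2 := by
  unfold ker
  fun_prop

/-- coordinates -/
noncomputable def Psi (n : ℕ) : Eu n ≃ᵐ (Fin n → ℝ) := (MeasurableEquiv.toLp 2 (Fin n → ℝ)).symm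

lemma Psi_mp (n : ℕ) : MeasurePreserving (Psi n) :=
  EuclideanSpace.volume_preserving_symm_measurableEquiv_toLp (Fin n)

lemma Psi_app {n : ℕ} (x : Eu n) (j : Fin n) : Psi n x j = x j := rfl

/-- the slices -/
lemma slice {n : ℕ} {g : (Fin n → ℝ) → ℂ} (hg : Measurable g) {M : ℝ} (hM : ∀ x, ‖g x‖ ≤ M)
    (hi : Integrable g) (t : ℝ) : ∫⁻ x : Fin n → ℝ, ‖Top volume ker g (x, t)‖ₑ ^ 2 =
      ∫⁻ x, ‖g x‖ₑ ^ 2 := by
  set e : (Fin n → ℝ) → ℂ := fun x => cexp (2 * Real.pi * I * (((∑ j, x j ^ 2) * t : ℝ) : ℂ)) with he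
  have hec : Continuous e := by
    simp only [he]
    fun_prop
  have hen : ∀ x, ‖e x‖ = 1 := fun x => by
    simp only [he]
    rw [show 2 * (Real.pi : ℂ) * I * (((∑ j, x j ^ 2) * t : ℝ) : ℂ) =
      ((2 * Real.pi * ((∑ j, x j ^ 2) * t) : ℝ) : ℂ) * I by
      push_cast; ring, Complex.norm_exp_ofReal_mul_I]
  set h : Eu n → ℂ := fun v => e (Psi n v) * g (Psi n v) with hh
  have hGi : Integrable (fun x => e x * g x) := hi.bdd_mul hec.measurable.aestronglyMeasurable (c := 1)
    (Filter.Eventually.of_forall fun u => (hen u).le)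
  have hGn : ∀ x, ‖e x * g x‖ = ‖g x‖ := fun x => by rw [norm_mul, hen, one_mul]
  have h1 : Integrable h := ((Psi_mp n).integrable_comp_emb (Psi n).measurableEmbedding).2 hGi
  have h2 : MemLp h 2 := by
    rw [memLp_two_iff_integrable_sq_norm h1.aestronglyMeasurable]
    have : Integrable (fun v => ‖h v‖ * ‖h v‖) := by
      refine h1.norm.bdd_mul (c := M) h1.norm.aestronglyMeasurable
        (Filter.Eventually.of_forall fun v => ?_)
      rw [norm_norm]
      simp only [hh]
      rw [hGn]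
      exact hM _
    refine this.congr (Filter.Eventually.of_forall fun v => ?_)
    simp only
    ring
  have hF : ∀ η : Eu n, 𝓕 h (-η) = Top volume ker g (Psi n η, t) := by
    intro η
    rw [Real.fourier_eq', Pool.Agent.V1172.GP.Top, ← (Psi_mp n).integral_comp (Psi n).measurableEmbedding]
    congr 1
    ext v
    simp only [hh, he, ker, smul_eq_mul]
    rw [← mul_assoc, ← Complex.exp_add]
    congr 2
    have h3 : ⟪v, -η⟫ = -∑ j, v j * η j := by
      rw [inner_neg_right, PiLp.inner_apply]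
      simp only [Real.inner_apply]
    rw [h3]
    simp only [Psi_app]
    push_cast
    ring
  have hpl := Pool.Agent.Helper160.MF.JL3mult.mb_plancherel h h1 h2
  -- the left side
  have h4 : ∫⁻ η : Eu n, ‖𝓕 h η‖ₑ ^ 2 = ∫⁻ x : Fin n → ℝ, ‖Top volume ker g (x, t)‖ₑ ^ 2 := by
    rw [← lintegral_neg_eq_self (fun η : Eu n => ‖𝓕 h η‖ₑ ^ 2)]
    simp only [hF]
    exact (Psi_mp n).lintegral_comp_emb (Psi n).measurableEmbedding
      (fun x : Fin n → ℝ => ‖Top volume ker g (x, t)‖ₑ ^ 2)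
  have h5 : ∫⁻ v : Eu n, ‖h v‖ₑ ^ 2 = ∫⁻ x, ‖g x‖ₑ ^ 2 := by
    have h6 := (Psi_mp n).lintegral_comp_emb (Psi n).measurableEmbedding
      (fun x : Fin n → ℝ => ‖g x‖ₑ ^ 2)
    rw [← h6]
    refine lintegral_congr fun v => ?_
    simp only [hh]
    rw [← ofReal_norm, ← ofReal_norm, hGn]
  rw [← h4, hpl, h5]

/-- the hypotheses on the kernel -/
theorem ker_ker (n : ℕ) : Ker (volume : Measure (Fin n → ℝ)) (volume : Measure ((Fin n → ℝ) × ℝ)) ker
    (fun z => |z.2|) 2 where
  meas := ker_cont.measurable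
  one := ker_norm
  rm := measurable_snd.abs
  r0 := fun z => abs_nonneg _
  null := by
    have e : {z : (Fin n → ℝ) × ℝ | |z.2| = 0} = univ ×ˢ {0} := by
      ext z
      simp
    rw [e, Measure.volume_eq_prod, Measure.prod_prod]
    simp
  pos := two_pos
  ah := by
    rintro g hg ⟨M, hM⟩ hi R hR
    have hk : Measurable fun p : ((Fin n → ℝ) × ℝ) × (Fin n → ℝ) => ker p.1 p.2 := ker_cont.measurable
    have hTm : Measurable (Top volume ker g) := by
      have : StronglyMeasurable fun p : ((Fin n → ℝ) × ℝ) × (Fin n → ℝ) => ker p.1 p.2 * g p.2 :=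
        (hk.mul (hg.comp measurable_snd)).stronglyMeasurable
      exact (this.integral_prod_right' (ν := (volume : Measure (Fin n → ℝ)))).measurable
    set F : (Fin n → ℝ) × ℝ → ℝ≥0∞ := fun z => {z : (Fin n → ℝ) × ℝ | |z.2| < R}.indicator
      (fun z => ‖Top volume ker g z‖ₑ ^ 2) z with hF
    have hsm : MeasurableSet {z : (Fin n → ℝ) × ℝ | |z.2| < R} :=
      measurableSet_lt measurable_snd.abs measurable_const
    have hFm : Measurable F := (hTm.enorm.pow_const 2).indicator hsm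
    rw [← lintegral_indicator hsm, Measure.volume_eq_prod, lintegral_prod_symm _ hFm.aemeasurable]
    have h3 : ∀ t : ℝ, ∫⁻ x : Fin n → ℝ, F (x, t) =
        (Ioo (-R) R).indicator (fun _ => ∫⁻ x, ‖g x‖ₑ ^ 2) t := by
      intro t
      by_cases ht : |t| < R
      · rw [indicator_of_mem (show t ∈ Ioo (-R) R from abs_lt.1 ht), ← slice hg hM hi t]
        refine lintegral_congr fun ξ => ?_
        simp only [hF]
        rw [indicator_of_mem]
        exact ht
      · rw [indicator_of_notMem (show t ∉ Ioo (-R) R from fun h => ht (abs_lt.2 h)),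
          ← lintegral_zero (μ := (volume : Measure (Fin n → ℝ)))]
        refine lintegral_congr fun ξ => ?_
        simp only [hF]
        rw [indicator_of_notMem]
        exact ht
    have h4 : ∫⁻ t : ℝ, ∫⁻ x : Fin n → ℝ, F (x, t) = ENNReal.ofReal (2 * R) * ∫⁻ x, ‖g x‖ₑ ^ 2 := by
      simp only [h3]
      rw [lintegral_indicator measurableSet_Ioo, setLIntegral_const, Real.volume_Ioo, mul_comm]
      congr 2
      ring
    exact h4.le

end Pool.Agent.V1172.GD
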