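import Pool.Agent.V1172.GD.Atm
import Pool.Agent.V1172.GP.Parts

set_option autoImplicit false

/-! Complex densities. -/

namespace Pool.Agent.V1172.GD

open MeasureTheory Set Metric Complex
open Pool.Agent.V1172.GP (Ker Top_meas cm cm_meas cm_enorm mul_int phs phs_norm toNN_sub)
open scoped ENNReal NNReal

variable {n : ℕ}

/-- the four parts -/
noncomputable def prt (G : (Fin n → ℝ) → ℂ) (j : Fin 4) (x : Fin n → ℝ) : ℝ≥0 :=
  (![(G x).re, -(G x).re, (G x).im, -(G x).im] j).toNNReal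

lemma prt_meas {G : (Fin n → ℝ) → ℂ} (hG : Measurable G) (j : Fin 4) : Measurable (prt G j) := by
  have h1 : Measurable fun x => (G x).re := Complex.measurable_re.comp hG
  have h2 : Measurable fun x => (G x).im := Complex.measurable_im.comp hG
  fin_cases j
  · exact measurable_real_toNNReal.comp h1
  · exact measurable_real_toNNReal.comp h1.neg
  · exact measurable_real_toNNReal.comp h2
  · exact measurable_real_toNNReal.comp h2.neg

lemma prt_le (G : (Fin n → ℝ) → ℂ) (j : Fin 4) (x : Fin n → ℝ) : prt G j x ≤ ‖G x‖₊ := by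
  have h1 := Complex.abs_re_le_norm (G x)
  have h2 := Complex.abs_im_le_norm (G x)
  rw [prt, Real.toNNReal_le_iff_le_coe, coe_nnnorm]
  fin_cases j
  · exact (le_abs_self _).trans h1
  · exact (neg_le_abs _).trans h1
  · exact (le_abs_self _).trans h2
  · exact (neg_le_abs _).trans h2

lemma ker_zero (x : Fin n → ℝ) : ker (0 : (Fin n → ℝ) × ℝ) x = 1 := by
  simp [ker]

lemma prt_sum (G : (Fin n → ℝ) → ℂ) (x : Fin n → ℝ) :
    ∑ j, mdl 0 (prt G j) (fun _ => phs j) x = G x := by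
  rw [Fin.sum_univ_four]
  simp only [mdl, ker_zero, cm, prt, phs, Matrix.cons_val]
  have h1 := toNN_sub (G x).re
  have h2 := toNN_sub (G x).im
  simp only [Real.coe_toNNReal'] at h1 h2
  apply Complex.ext
  · simp
    linarith
  · simp
    linarith

lemma TT_prt {G : (Fin n → ℝ) → ℂ} (hG : Measurable G) (hfin : ∫⁻ x, ‖G x‖ₑ ≠ ∞)
    (z : (Fin n → ℝ) × ℝ) :
    TT G z = ∑ j, TT (mdl 0 (prt G j) fun _ => phs j) z := by
  unfold TT Pool.Agent.V1172.GP.Top
  rw [← integral_finsetSum]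
  · congr 1
    ext w
    rw [← Finset.mul_sum, prt_sum]
  · intro j _
    refine mul_int (ker_ker n) ⟨(mdl_meas 0 (prt_meas hG j) measurable_const).aestronglyMeasurable, ?_⟩ z
    rw [HasFiniteIntegral]
    refine lt_of_le_of_lt (lintegral_mono fun x => (mdl_enorm 0 _ (fun _ => phs_norm j) x).trans
      (ENNReal.coe_le_coe.2 (prt_le G j x))) (lt_top_iff_ne_top.2 hfin)

/-- the endpoint for one density -/
theorem one_weak (hn : 0 < n) {B : ℝ} {G : (Fin n → ℝ) → ℂ} (hG : Measurable G)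
    (hfin : ∫⁻ x, ‖G x‖ₑ ≠ ∞) (hM : ∀ j, Atm B (prt G j) fun _ => phs j) {lam : ℝ} (hlam : 0 < lam) :
      volume {z | lam < ‖TT G z‖} ≤
        ENNReal.ofReal (524288 * B ^ (2 / (n : ℝ)) / lam ^ (2 + 2 / (n : ℝ))) *
        ∫⁻ x, ‖G x‖ₑ ^ (2 + 2 / (n : ℝ)) := by
  have hB := (hM 0).pos
  have hn0 : (0 : ℝ) < n := by exact_mod_cast hn
  have hn1 : (1 : ℝ) ≤ n := by exact_mod_cast hn
  set c : ℝ := 2 / (n : ℝ) with hc
  have hc0 : 0 < c := by positivity
  have hc2 : c ≤ 2 := by rw [hc, div_le_iff₀ hn0]; linarith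
  have hsub : {z | lam < ‖TT G z‖} ⊆
      ⋃ j : Fin 4, {z | lam / 4 < ‖TT (mdl 0 (prt G j) fun _ => phs j) z‖} := by
    intro z hz
    by_contra hcon
    simp only [mem_iUnion, mem_ofPred_eq, not_exists, not_lt] at hcon
    have h1 : lam < ‖TT G z‖ := hz
    rw [TT_prt hG hfin] at h1
    have h2 := norm_sum_le (Finset.univ : Finset (Fin 4)) fun j => TT (mdl 0 (prt G j) fun _ => phs j) z
    have h3 : ∑ j : Fin 4, ‖TT (mdl 0 (prt G j) fun _ => phs j) z‖ ≤ ∑ _j : Fin 4, lam / 4 :=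
      Finset.sum_le_sum fun j _ => hcon j
    rw [Finset.sum_const, Finset.card_univ, Fintype.card_fin, nsmul_eq_mul] at h3
    push_cast at h3
    linarith
  refine (measure_mono hsub).trans ((measure_iUnion_le _).trans ?_)
  rw [tsum_fintype]
  have hconst : 32 * (4 * B) ^ c / (lam / 4) ^ (2 + c) ≤ 131072 * B ^ c / lam ^ (2 + c) := by
    have a1 : (4 : ℝ) ^ c ≤ 16 := by
      calc (4 : ℝ) ^ c ≤ 4 ^ (2 : ℝ) := Real.rpow_le_rpow_of_exponent_le (by norm_num) hc2
        _ = 16 := by norm_num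
    have a2 : (4 : ℝ) ^ (2 + c) ≤ 256 := by
      calc (4 : ℝ) ^ (2 + c) ≤ 4 ^ (4 : ℝ) :=
            Real.rpow_le_rpow_of_exponent_le (by norm_num) (by linarith)
        _ = 256 := by norm_num
    have hl : 0 < lam ^ (2 + c) := by positivity
    have h4 : (0 : ℝ) < 4 ^ (2 + c) := by positivity
    calc 32 * (4 * B) ^ c / (lam / 4) ^ (2 + c)
        = 32 * 4 ^ c * 4 ^ (2 + c) * (B ^ c / lam ^ (2 + c)) := by
          rw [Real.mul_rpow (by norm_num) hB.le, Real.div_rpow hlam.le (by norm_num)]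
          field_simp
      _ ≤ 32 * 16 * 256 * (B ^ c / lam ^ (2 + c)) := by gcongr
      _ = _ := by ring
  have h4 : ∀ j : Fin 4, volume {z | lam / 4 < ‖TT (mdl 0 (prt G j) fun _ => phs j) z‖} ≤
      ENNReal.ofReal (131072 * B ^ c / lam ^ (2 + c)) * ∫⁻ x, ‖G x‖ₑ ^ (2 + c) := by
    intro j
    have h5 := atm_weak hn (hM j)
      (ne_top_of_le_ne_top hfin (lintegral_mono fun x => ENNReal.coe_le_coe.2 (prt_le G j x))) 0
      (lam := lam / 4) (by positivity)
    refine h5.trans (mul_le_mul' (ENNReal.ofReal_le_ofReal hconst) (lintegral_mono fun x => ?_))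
    exact ENNReal.rpow_le_rpow (ENNReal.coe_le_coe.2 (prt_le G j x)) (by positivity)
  refine (Finset.sum_le_sum fun j _ => h4 j).trans (le_of_eq ?_)
  rw [Finset.sum_const, Finset.card_univ, Fintype.card_fin, nsmul_eq_mul, ← mul_assoc]
  congr 1
  rw [← ENNReal.ofReal_natCast, ← ENNReal.ofReal_mul (by positivity)]
  congr 1
  push_cast
  ring

/-- the scaling line for one density -/
theorem one_strong (hn : 0 < n) {B : ℝ} {G : (Fin n → ℝ) → ℂ} (hG : Measurable G)
    (hfin : ∫⁻ x, ‖G x‖ₑ ≠ ∞) (hM : ∀ j, Atm B (prt G j) fun _ => phs j) {p : ℝ}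
    (hp : 2 + 2 / (n : ℝ) < p) :
      eLpNorm (TT G) (ENNReal.ofReal p) volume ≤
        ENNReal.ofReal (65536 * (B ^ (2 / (n : ℝ)) / (p - 2 - 2 / n)) ^ (1 / p)) *
        (∫⁻ x, ‖G x‖ₑ ^ (p / (p - 1 - 2 / n))) ^ (1 / (p / (p - 1 - 2 / n))) := by
  have hB := (hM 0).pos
  have hn0 : (0 : ℝ) < n := by exact_mod_cast hn
  have hc0 : 0 < 2 / (n : ℝ) := by positivity
  have hp0 : 0 < p := by linarith
  have hp2 : 0 < p - 1 - 2 / (n : ℝ) := by linarith
  have hp3 : 0 < p - 2 - 2 / (n : ℝ) := by linarith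
  have e1 : TT G = ∑ j : Fin 4, TT (mdl 0 (prt G j) fun _ => phs j) := by
    ext z
    rw [TT_prt hG hfin, Finset.sum_apply]
  rw [e1]
  refine (eLpNorm_sum_le (fun j _ => (Top_meas (ker_ker n)
    (mdl_meas 0 (prt_meas hG j) measurable_const)).aestronglyMeasurable)
    (by rw [← ENNReal.ofReal_one]; exact ENNReal.ofReal_le_ofReal (by linarith))).trans ?_
  have h4 : ∀ j : Fin 4, eLpNorm (TT (mdl 0 (prt G j) fun _ => phs j)) (ENNReal.ofReal p) volume ≤
      ENNReal.ofReal (16384 * (B ^ (2 / (n : ℝ)) / (p - 2 - 2 / n)) ^ (1 / p)) *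
        (∫⁻ x, ‖G x‖ₑ ^ (p / (p - 1 - 2 / n))) ^ (1 / (p / (p - 1 - 2 / n))) := by
    intro j
    refine (atm_strong hn (hM j)
      (ne_top_of_le_ne_top hfin (lintegral_mono fun x => ENNReal.coe_le_coe.2 (prt_le G j x))) 0
      hp).trans (mul_le_mul' le_rfl ?_)
    refine ENNReal.rpow_le_rpow (lintegral_mono fun x => ?_) (by positivity)
    exact ENNReal.rpow_le_rpow (ENNReal.coe_le_coe.2 (prt_le G j x)) (by positivity)
  refine (Finset.sum_le_sum fun j _ => h4 j).trans (le_of_eq ?_)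
  rw [Finset.sum_const, Finset.card_univ, Fintype.card_fin, nsmul_eq_mul, ← mul_assoc]
  congr 1
  rw [← ENNReal.ofReal_natCast, ← ENNReal.ofReal_mul (by positivity)]
  congr 1
  push_cast
  ring

end Pool.Agent.V1172.GD
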