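import Pool.Agent.V1172.GD.Parts
import Pool.Agent.Helper646.Vdc

set_option autoImplicit false

/-! Rules for the dispersive estimate. -/

namespace Pool.Agent.V1172.GD

open MeasureTheory Set Metric Complex
open Pool.Agent.V1172.GP (Ker Top_meas mul_int T_tsum)
open scoped ENNReal NNReal RealInnerProductSpace

variable {n a b : ℕ}

/-- superpositions -/
lemma Disp.tsum {g : (Fin n → ℝ) → ℂ} {F : ℕ → (Fin n → ℝ) → ℂ} {β : ℕ → ℝ} {B : ℝ}
    (hF : ∀ j, Measurable (F j)) (hs : ∑' j, ∫⁻ x, ‖F j x‖ₑ ≠ ∞) (hg : ∀ᵐ x, g x = ∑' j, F j x)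
    (hd : ∀ j, Disp (β j) (F j)) (hβ : ∑' j, ENNReal.ofReal (β j) ≤ ENNReal.ofReal B) (hB : 0 ≤ B) :
    Disp B g := by
  intro z hz
  have h1 := T_tsum (ker_ker n) hF hs hg z
  have h2 : ‖TT g z‖ₑ ≤ ∑' j, ‖TT (F j) z‖ₑ := by
    have h3 := h1.tsum_eq
    rw [show TT g z = ∑' j, TT (F j) z from h3.symm]
    exact enorm_tsum_le_tsum_enorm
  set D : ℝ := |z.2| ^ ((n : ℝ) / 2) with hD
  have hD0 : 0 < D := Real.rpow_pos_of_pos (abs_pos.2 hz) _
  have h4 : ∑' j, ‖TT (F j) z‖ₑ ≤ ENNReal.ofReal (B / D) := by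
    calc ∑' j, ‖TT (F j) z‖ₑ ≤ ∑' j, ENNReal.ofReal (β j) * ENNReal.ofReal (1 / D) := by
          refine ENNReal.tsum_le_tsum fun j => ?_
          rw [← ofReal_norm]
          have h5 := hd j z hz
          have hβ0 : 0 ≤ β j := by
            by_contra hcon
            have : β j / D < 0 := div_neg_of_neg_of_pos (not_le.1 hcon) hD0
            linarith [norm_nonneg (TT (F j) z)]
          rw [← ENNReal.ofReal_mul hβ0]
          apply ENNReal.ofReal_le_ofReal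
          rw [mul_one_div]
          exact h5
      _ = (∑' j, ENNReal.ofReal (β j)) * ENNReal.ofReal (1 / D) := ENNReal.tsum_mul_right
      _ ≤ ENNReal.ofReal B * ENNReal.ofReal (1 / D) := by gcongr
      _ = ENNReal.ofReal (B / D) := by
          rw [← ENNReal.ofReal_mul hB, mul_one_div]
  have h6 := h2.trans h4
  rw [← ofReal_norm] at h6
  exact (ENNReal.ofReal_le_ofReal_iff (by positivity)).1 h6

/-- the coordinates of a product -/
def Phi (e : Fin a ⊕ Fin b ≃ Fin n) : (Fin n → ℝ) ≃ᵐ (Fin a → ℝ) × (Fin b → ℝ) :=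
  (MeasurableEquiv.piCongrLeft (fun _ : Fin n => ℝ) e).symm.trans
    (MeasurableEquiv.sumPiEquivProdPi fun _ => ℝ)

lemma Phi_app (e : Fin a ⊕ Fin b ≃ Fin n) (x : Fin n → ℝ) :
    Phi e x = (fun i => x (e (Sum.inl i)), fun i => x (e (Sum.inr i))) := rfl

lemma Phi_mp (e : Fin a ⊕ Fin b ≃ Fin n) : MeasurePreserving (Phi e) :=
  (volume_measurePreserving_sumPiEquivProdPi (fun _ : Fin a ⊕ Fin b => ℝ)).comp
    ((volume_measurePreserving_piCongrLeft (fun _ : Fin n => ℝ) e).symm)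

/-- products -/
lemma Disp.mul (e : Fin a ⊕ Fin b ≃ Fin n) {A B : ℝ} {g : (Fin a → ℝ) → ℂ} {h : (Fin b → ℝ) → ℂ}
    (hg : Disp A g) (hh : Disp B h) :
    Disp (A * B) fun ξ : Fin n → ℝ => g (fun i => ξ (e (Sum.inl i))) * h (fun i => ξ (e (Sum.inr i))) := by
  intro z hz
  set z₁ : (Fin a → ℝ) × ℝ := (fun i => z.1 (e (Sum.inl i)), z.2) with hz₁
  set z₂ : (Fin b → ℝ) × ℝ := (fun i => z.1 (e (Sum.inr i)), z.2) with hz₂
  have hk : ∀ ξ : Fin n → ℝ, ker z ξ = ker z₁ (Phi e ξ).1 * ker z₂ (Phi e ξ).2 := by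
    intro ξ
    rw [ker, ker, ker, ← Complex.exp_add, ← mul_add]
    congr 2
    rw [← Complex.ofReal_add]
    congr 1
    rw [Phi_app]
    simp only [hz₁, hz₂]
    have s1 : ∑ j, ξ j * z.1 j = ∑ i, ξ (e (Sum.inl i)) * z.1 (e (Sum.inl i)) +
        ∑ i, ξ (e (Sum.inr i)) * z.1 (e (Sum.inr i)) := by
      rw [← e.sum_comp, Fintype.sum_sum_type]
    have s2 : ∑ j, ξ j ^ 2 = ∑ i, ξ (e (Sum.inl i)) ^ 2 + ∑ i, ξ (e (Sum.inr i)) ^ 2 := by
      rw [← e.sum_comp, Fintype.sum_sum_type]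
    rw [s1, s2]
    ring
  have h1 : TT (fun ξ : Fin n → ℝ => g (fun i => ξ (e (Sum.inl i))) *
      h (fun i => ξ (e (Sum.inr i)))) z = TT g z₁ * TT h z₂ := by
    unfold TT Pool.Agent.V1172.GP.Top
    rw [← integral_prod_mul, ← Measure.volume_eq_prod, ← (Phi_mp e).integral_comp
      (Phi e).measurableEmbedding]
    congr 1
    ext ξ
    rw [hk]
    simp only [Phi_app]
    ring
  have hcard : (n : ℝ) / 2 = (a : ℝ) / 2 + (b : ℝ) / 2 := by
    have := Fintype.card_congr e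
    simp only [Fintype.card_sum, Fintype.card_fin] at this
    rw [← this]
    push_cast
    ring
  have ht : 0 < |z.2| := abs_pos.2 hz
  rw [h1, norm_mul, hcard, Real.rpow_add ht, mul_div_mul_comm]
  have b1 := hg z₁ hz
  have b2 := hh z₂ hz
  exact mul_le_mul b1 b2 (norm_nonneg _) ((norm_nonneg _).trans b1)

/-- rotation of the coordinates -/
noncomputable def Rot (R : EuclideanSpace ℝ (Fin n) ≃ₗᵢ[ℝ] EuclideanSpace ℝ (Fin n)) :
    (Fin n → ℝ) ≃ᵐ (Fin n → ℝ) :=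
  (Psi n).symm.trans (R.toHomeomorph.toMeasurableEquiv.trans (Psi n))

lemma Rot_mp (R : EuclideanSpace ℝ (Fin n) ≃ₗᵢ[ℝ] EuclideanSpace ℝ (Fin n)) :
    MeasurePreserving (Rot R) :=
  (Psi_mp n).comp ((R.measurePreserving).comp (Psi_mp n).symm)

lemma Rot_app (R : EuclideanSpace ℝ (Fin n) ≃ₗᵢ[ℝ] EuclideanSpace ℝ (Fin n)) (ξ : Fin n → ℝ) :
    Rot R ξ = (R (WithLp.toLp 2 ξ)).ofLp := rfl

lemma inner_Rot (R : EuclideanSpace ℝ (Fin n) ≃ₗᵢ[ℝ] EuclideanSpace ℝ (Fin n)) (ξ x : Fin n → ℝ) :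
    ∑ j, Rot R ξ j * Rot R x j = ∑ j, ξ j * x j := by
  have h1 := R.inner_map_map (WithLp.toLp 2 ξ) (WithLp.toLp 2 x)
  rw [PiLp.inner_apply, PiLp.inner_apply] at h1
  simp only [Real.inner_apply] at h1
  exact h1

/-- isometries -/
lemma Disp.rot {B : ℝ} {g : (Fin n → ℝ) → ℂ} (hg : Disp B g)
    (R : EuclideanSpace ℝ (Fin n) ≃ₗᵢ[ℝ] EuclideanSpace ℝ (Fin n)) :
    Disp B fun ξ => g (Rot R ξ) := by
  intro z hz
  have h1 : TT (fun ξ => g (Rot R ξ)) z = TT g (Rot R z.1, z.2) := by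
    unfold TT Pool.Agent.V1172.GP.Top
    have h0 := (Rot_mp R).integral_comp (Rot R).measurableEmbedding
      (fun η => ker (Rot R z.1, z.2) η * g η)
    rw [← h0]
    congr 1
    ext ξ
    congr 1
    rw [ker, ker]
    congr 3
    simp only
    rw [inner_Rot]
    have := inner_Rot R ξ ξ
    simp only [← sq] at this
    rw [this]
  rw [h1]
  exact hg _ hz

lemma fresnel {x t p q : ℝ} (hpq : p ≤ q) (ht : 0 < t) :
    ‖∫ u in p..q, cexp (2 * Real.pi * I * ((u * x + u ^ 2 * t : ℝ) : ℂ))‖ ≤ 3 / t ^ ((1 : ℝ) / 2) := by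
  have hpi := Real.pi_pos
  have h1 := Pool.Agent.Helper646.Vdc.vdc_two
    (g := fun u : ℝ => cexp (2 * Real.pi * I * ((u * x + u ^ 2 * t : ℝ) : ℂ)))
    (w := fun u => 2 * Real.pi * (x + 2 * t * u)) (w' := fun _ => 4 * Real.pi * t)
    (l := 4 * Real.pi * t) (d := 1 / t ^ ((1 : ℝ) / 2)) hpq (by positivity) (by positivity)
    (fun u => ?_) (fun u => ?_) (fun u => ?_) continuous_const (fun _ _ => le_rfl)
  · refine h1.trans ?_
    have h2 : t = t ^ ((1 : ℝ) / 2) * t ^ ((1 : ℝ) / 2) := by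
      rw [← Real.rpow_add ht]
      norm_num
    set r : ℝ := t ^ ((1 : ℝ) / 2) with hr
    have hr0 : 0 < r := by positivity
    rw [h2]
    have h3 : 2 / (4 * Real.pi * (r * r) * (1 / r)) = 1 / (2 * Real.pi) / r := by
      field_simp
      ring
    rw [h3]
    have h4 : 1 / (2 * Real.pi) ≤ 1 / 2 := by
      rw [div_le_div_iff₀ (by positivity) (by norm_num)]
      nlinarith [Real.pi_gt_three]
    calc 2 * (1 / r + 1 / (2 * Real.pi) / r) ≤ 2 * (1 / r + 1 / 2 / r) := by gcongr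
      _ = 3 / r := by ring
  · have h3 : HasDerivAt (fun u : ℝ => ((u * x + u ^ 2 * t : ℝ) : ℂ)) ((x + 2 * u * t : ℝ) : ℂ) u := by
      refine HasDerivAt.ofReal_comp (f := fun u : ℝ => u * x + u ^ 2 * t) ?_
      have h4 := ((hasDerivAt_id u).mul_const x).add (((hasDerivAt_id u).pow 2).mul_const t)
      refine h4.congr_deriv ?_
      simp
    have h5 := (h3.const_mul (2 * Real.pi * I)).cexp
    refine h5.congr_deriv ?_
    push_cast
    ring
  · rw [show 2 * (Real.pi : ℂ) * I * ((u * x + u ^ 2 * t : ℝ) : ℂ) =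
      ((2 * Real.pi * (u * x + u ^ 2 * t) : ℝ) : ℂ) * I by push_cast; ring,
      Complex.norm_exp_ofReal_mul_I]
  · have h4 := ((hasDerivAt_id u).const_mul (2 * t)).const_add x
    have h5 := h4.const_mul (2 * Real.pi)
    refine h5.congr_deriv ?_
    simp
    ring

lemma fresnel' {x t p q : ℝ} (hpq : p ≤ q) (ht : t ≠ 0) :
    ‖∫ u in Icc p q, cexp (2 * Real.pi * I * ((u * x + u ^ 2 * t : ℝ) : ℂ))‖ ≤
      3 / |t| ^ ((1 : ℝ) / 2) := by
  rw [integral_Icc_eq_integral_Ioc]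
  rcases lt_or_gt_of_ne ht with h | h
  · have h1 := fresnel (x := -x) (t := -t) hpq (by linarith)
    rw [intervalIntegral.integral_of_le hpq] at h1
    rw [abs_of_neg h]
    refine le_trans (le_of_eq ?_) h1
    rw [← Complex.norm_conj, ← integral_conj]
    congr 2
    ext u
    rw [← Complex.exp_conj]
    congr 1
    simp only [map_mul, Complex.conj_I, Complex.conj_ofReal, map_ofNat]
    push_cast
    ring
  · have h1 := fresnel (x := x) (t := t) hpq h
    rw [intervalIntegral.integral_of_le hpq] at h1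
    rw [abs_of_pos h]
    exact h1

/-- intervals -/
lemma disp_interval (p q : ℝ) :
    Disp 3 fun ξ : Fin 1 → ℝ => (Icc p q).indicator (1 : ℝ → ℂ) (ξ 0) := by
  intro z hz
  have ht : 0 < |z.2| := abs_pos.2 hz
  have h1 : TT (fun ξ : Fin 1 → ℝ => (Icc p q).indicator (1 : ℝ → ℂ) (ξ 0)) z =
      ∫ u in Icc p q, cexp (2 * Real.pi * I * ((u * z.1 0 + u ^ 2 * z.2 : ℝ) : ℂ)) := by
    rw [← integral_indicator measurableSet_Icc,
      ← (volume_preserving_funUnique (Fin 1) ℝ).integral_comp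
        (MeasurableEquiv.funUnique (Fin 1) ℝ).measurableEmbedding]
    unfold TT Pool.Agent.V1172.GP.Top
    congr 1
    ext ξ
    have e1 : MeasurableEquiv.funUnique (Fin 1) ℝ ξ = ξ 0 := rfl
    rw [e1]
    show ker z ξ * (Icc p q).indicator (1 : ℝ → ℂ) (ξ 0) = _
    by_cases h : ξ 0 ∈ Icc p q
    · rw [indicator_of_mem h, indicator_of_mem h, Pi.one_apply, mul_one, ker]
      simp
    · rw [indicator_of_notMem h, indicator_of_notMem h, mul_zero]
  rw [h1]
  have e2 : ((1 : ℕ) : ℝ) / 2 = 1 / 2 := by norm_num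
  rw [e2]
  rcases le_or_gt p q with hpq | hpq
  · exact fresnel' hpq hz
  · rw [Icc_eq_empty (not_le.2 hpq)]
    simp only [Measure.restrict_empty, integral_zero_measure, norm_zero]
    positivity

/-- boxes -/
lemma disp_box (p q : Fin n → ℝ) : Disp (3 ^ n) ((Icc p q).indicator (1 : (Fin n → ℝ) → ℂ)) := by
  intro z hz
  have ht : 0 < |z.2| := abs_pos.2 hz
  set F : Fin n → ℝ → ℂ := fun j u =>
    (Icc (p j) (q j)).indicator (fun u : ℝ => cexp (2 * Real.pi * I * ((u * z.1 j + u ^ 2 * z.2 : ℝ) : ℂ))) u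
    with hF
  have hpt : ∀ ξ : Fin n → ℝ, ker z ξ * (Icc p q).indicator (1 : (Fin n → ℝ) → ℂ) ξ = ∏ j, F j (ξ j) := by
    intro ξ
    by_cases h : ξ ∈ Icc p q
    · have hj : ∀ j, ξ j ∈ Icc (p j) (q j) := fun j => ⟨h.1 j, h.2 j⟩
      rw [indicator_of_mem h, Pi.one_apply, mul_one]
      simp only [hF]
      have e1 : ∀ j, (Icc (p j) (q j)).indicator
          (fun u : ℝ => cexp (2 * Real.pi * I * ((u * z.1 j + u ^ 2 * z.2 : ℝ) : ℂ))) (ξ j) =
          cexp (2 * Real.pi * I * ((ξ j * z.1 j + ξ j ^ 2 * z.2 : ℝ) : ℂ)) := fun j =>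
        indicator_of_mem (hj j) _
      simp only [e1]
      rw [ker, ← Complex.exp_sum, ← Finset.mul_sum]
      congr 2
      rw [Finset.sum_mul, ← Finset.sum_add_distrib]
      push_cast
      rfl
    · rw [indicator_of_notMem h, mul_zero]
      obtain ⟨j, hj⟩ : ∃ j, ξ j ∉ Icc (p j) (q j) := by
        by_contra hcon
        push Not at hcon
        exact h ⟨fun j => (hcon j).1, fun j => (hcon j).2⟩
      rw [Finset.prod_eq_zero (Finset.mem_univ j)]
      simp only [hF]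
      exact indicator_of_notMem hj _
  have h1 : TT ((Icc p q).indicator (1 : (Fin n → ℝ) → ℂ)) z = ∏ j, ∫ u, F j u := by
    unfold TT Pool.Agent.V1172.GP.Top
    simp only [hpt]
    exact integral_fintype_prod_volume_eq_prod F
  rw [h1, norm_prod]
  have h2 : ∀ j, ‖∫ u, F j u‖ ≤ 3 / |z.2| ^ ((1 : ℝ) / 2) := by
    intro j
    simp only [hF]
    rw [integral_indicator measurableSet_Icc]
    rcases le_or_gt (p j) (q j) with hpq | hpq
    · exact fresnel' hpq hz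
    · rw [Icc_eq_empty (not_le.2 hpq)]
      simp only [Measure.restrict_empty, integral_zero_measure, norm_zero]
      positivity
  calc ∏ j, ‖∫ u, F j u‖ ≤ ∏ _j : Fin n, 3 / |z.2| ^ ((1 : ℝ) / 2) :=
        Finset.prod_le_prod (fun j _ => norm_nonneg _) fun j _ => h2 j
    _ = 3 ^ n / |z.2| ^ ((n : ℝ) / 2) := by
        rw [Finset.prod_const, Finset.card_univ, Fintype.card_fin, div_pow, ← Real.rpow_natCast,
          ← Real.rpow_natCast, ← Real.rpow_mul ht.le]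
        congr 2
        ring

/-- planar functions of bounded cyclic variation -/
lemma disp_planar {B : ℝ} (hB : 0 ≤ B) {g : ℝ × ℝ → ℂ} (hg : Measurable g) (hi : Integrable g)
    (hc : ∀ x, Pool.Agent.V1172.GP.cyc g x ≤ ENNReal.ofReal B) :
    Disp (B / 4) fun ξ : Fin 2 → ℝ => g (ξ 0, ξ 1) := by
  intro z hz
  have ht : 0 < |z.2| := abs_pos.2 hz
  have hpi := Real.pi_pos
  set w : ℝ × ℝ × ℝ := (-(2 * Real.pi * z.1 0), -(2 * Real.pi * z.1 1), -(2 * Real.pi * z.2)) with hw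
  have hw2 : w.2.2 ≠ 0 := by
    simp only [hw, ne_eq, neg_eq_zero, mul_eq_zero, not_or]
    exact ⟨⟨by norm_num, hpi.ne'⟩, hz⟩
  have h1 : TT (fun ξ : Fin 2 → ℝ => g (ξ 0, ξ 1)) z = ∫ x, Pool.Agent.V1172.GP.ker w x * g x := by
    rw [← (volume_preserving_finTwoArrow ℝ).integral_comp
      MeasurableEquiv.finTwoArrow.measurableEmbedding]
    unfold TT Pool.Agent.V1172.GP.Top
    congr 1
    ext ξ
    have e1 : (MeasurableEquiv.finTwoArrow ξ : ℝ × ℝ) = (ξ 0, ξ 1) := rfl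
    rw [e1]
    congr 1
    rw [ker, Pool.Agent.V1172.GP.ker]
    congr 1
    simp only [Fin.sum_univ_two, hw]
    push_cast
    ring
  have h2 := Pool.Agent.V1172.GP.dec hg hi hw2
  rw [← h1] at h2
  have h3 : |w.2.2| = 2 * Real.pi * |z.2| := by
    simp only [hw]
    rw [abs_neg, abs_mul, abs_of_pos (by positivity : (0 : ℝ) < 2 * Real.pi)]
  have h4 : ‖TT (fun ξ : Fin 2 → ℝ => g (ξ 0, ξ 1)) z‖ₑ ≤ ENNReal.ofReal (B / 4 / |z.2|) := by
    refine h2.trans ((mul_le_mul' le_rfl (hc _)).trans ?_)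
    rw [h3, ← ENNReal.ofReal_mul (by positivity)]
    apply ENNReal.ofReal_le_ofReal
    apply le_of_eq
    field_simp
    ring
  rw [← ofReal_norm] at h4
  have h5 := (ENNReal.ofReal_le_ofReal_iff (by positivity)).1 h4
  have e2 : ((2 : ℕ) : ℝ) / 2 = 1 := by norm_num
  rw [e2, Real.rpow_one]
  exact h5

end Pool.Agent.V1172.GD
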