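import Pool.Agent.V1172.GD.Weak
import Pool.Agent.V1172.GP.Strong

set_option autoImplicit false

/-! The estimates on the scaling line from the level set estimate. -/

namespace Pool.Agent.V1172.GD

open MeasureTheory Set Metric Complex
open scoped ENNReal NNReal
open Pool.Agent.V1172.GP (Top Ker Lam cm cm_meas Top_meas dst dst_meas Lr Lr_meas ind ind_meas Lr_le)

variable {X Z : Type*} [MeasurableSpace X] [MeasurableSpace Z]
variable {μ : Measure X} {ν : Measure Z} {k : Z → X → ℂ} {ρ : Z → ℝ} {K : ℝ}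

lemma cube (f : X → ℝ≥0) (hf : Measurable f) {c : ℝ} (hc : 0 < c) (lam : ℝ) (s : ℝ≥0)
    (hs : ∀ t < s, ENNReal.ofReal (lam / 4) < Lam μ f t) :
    ∫⁻ x, ((min (f x) s : ℝ≥0) : ℝ≥0∞) ^ (2 + c) ∂μ ≤
      ENNReal.ofReal (2 + c) * ∫⁻ t in Ioi (0 : ℝ), dst μ f t * ind μ f lam t *
        ENNReal.ofReal (t ^ (1 + c)) := by
  have h1 := lintegral_rpow_eq_lintegral_meas_lt_mul μ
    (f := fun x => ((min (f x) s : ℝ≥0) : ℝ)) (Filter.Eventually.of_forall fun x => NNReal.coe_nonneg _)
    (measurable_coe_nnreal_real.comp (hf.min measurable_const)).aemeasurable (p := 2 + c) (by linarith)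
  have e1 : ∫⁻ x, ((min (f x) s : ℝ≥0) : ℝ≥0∞) ^ (2 + c) ∂μ =
      ∫⁻ x, ENNReal.ofReal (((min (f x) s : ℝ≥0) : ℝ) ^ (2 + c)) ∂μ := by
    refine lintegral_congr fun x => ?_
    rw [← ENNReal.ofReal_rpow_of_nonneg (NNReal.coe_nonneg _) (by linarith), ENNReal.ofReal_coe_nnreal]
  rw [e1, h1]
  gcongr ENNReal.ofReal (2 + c) * ?_
  refine setLIntegral_mono' measurableSet_Ioi fun t ht => ?_
  have ht0 : (0 : ℝ) < t := ht
  rw [show (2 + c) - 1 = 1 + c by ring]
  gcongr ?_ * _
  by_cases hts : t < s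
  · have h2 : ind μ f lam t = 1 := by
      unfold ind Lr
      rw [if_pos]
      refine hs _ ?_
      rw [← NNReal.coe_lt_coe, Real.coe_toNNReal _ ht0.le]
      exact hts
    rw [h2, mul_one]
    refine measure_mono fun x hx => ?_
    have h3 : t < ((min (f x) s : ℝ≥0) : ℝ) := hx
    exact lt_of_lt_of_le h3 (by exact_mod_cast min_le_left _ _)
  · have : {x | t < ((min (f x) s : ℝ≥0) : ℝ)} = ∅ := by
      ext x
      simp only [mem_empty_iff_false, iff_false]
      intro h3
      have h4 : t < ((min (f x) s : ℝ≥0) : ℝ) := h3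
      exact hts (lt_of_lt_of_le h4 (by exact_mod_cast min_le_right _ _))
    rw [this, measure_empty]
    exact zero_le

lemma inner_lam {f : X → ℝ≥0} (hf : Measurable f) {p q A c : ℝ} (hp : 2 + c < p) (hq : 1 < q) (hA : 0 ≤ A)
    (hAe : ∫⁻ x, (f x : ℝ≥0∞) ^ q ∂μ = ENNReal.ofReal A) {t : ℝ} (ht : 0 < t) :
    ∫⁻ lam in Ioi (0 : ℝ), ENNReal.ofReal (lam ^ (p - 3 - c)) * ind μ f lam t ≤
      ENNReal.ofReal (4 ^ (p - 2 - c) / (p - 2 - c) * (t ^ (1 - q) * A) ^ (p - 2 - c)) := by
  have hL := Lr_le (μ := μ) hf hq ht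
  rw [hAe, ← ENNReal.ofReal_mul (by positivity)] at hL
  set B : ℝ := 4 * (t ^ (1 - q) * A) with hB
  have hB0 : 0 ≤ B := by positivity
  calc ∫⁻ lam in Ioi (0 : ℝ), ENNReal.ofReal (lam ^ (p - 3 - c)) * ind μ f lam t
      ≤ ∫⁻ lam in Ioi (0 : ℝ), (Ioc 0 B).indicator (fun lam => ENNReal.ofReal (lam ^ (p - 3 - c))) lam := by
        refine setLIntegral_mono' measurableSet_Ioi fun lam hlam => ?_
        have hl : (0 : ℝ) < lam := hlam
        unfold ind
        by_cases h : ENNReal.ofReal (lam / 4) < Lr μ f t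
        · rw [if_pos h, mul_one, indicator_of_mem]
          refine ⟨hl, ?_⟩
          have h1 := h.trans_le hL
          have h2 : lam / 4 < t ^ (1 - q) * A :=
            (ENNReal.ofReal_lt_ofReal_iff_of_nonneg (by positivity)).1 h1
          rw [hB]; linarith
        · rw [if_neg h, mul_zero]
          exact zero_le
    _ ≤ ∫⁻ lam, (Ioc 0 B).indicator (fun lam => ENNReal.ofReal (lam ^ (p - 3 - c))) lam :=
        setLIntegral_le_lintegral _ _
    _ = ∫⁻ lam in Ioc 0 B, ENNReal.ofReal (lam ^ (p - 3 - c)) := lintegral_indicator measurableSet_Ioc _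
    _ = ENNReal.ofReal (∫ lam in Ioc 0 B, lam ^ (p - 3 - c)) := by
        rw [ofReal_integral_eq_lintegral_ofReal]
        · have := intervalIntegral.intervalIntegrable_rpow' (a := 0) (b := B) (r := p - 3 - c) (by linarith)
          exact (intervalIntegrable_iff_integrableOn_Ioc_of_le hB0).1 this
        · refine (ae_restrict_mem measurableSet_Ioc).mono fun lam hl => ?_
          exact Real.rpow_nonneg hl.1.le _
    _ = ENNReal.ofReal (4 ^ (p - 2 - c) / (p - 2 - c) * (t ^ (1 - q) * A) ^ (p - 2 - c)) := by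
        rw [← intervalIntegral.integral_of_le hB0, integral_rpow (Or.inl (by linarith))]
        congr 1
        rw [show p - 3 - c + 1 = p - 2 - c by ring, Real.zero_rpow (by linarith), sub_zero, hB,
          Real.mul_rpow (by norm_num) (by positivity)]
        ring

/-- **The estimate on the scaling line.** -/
theorem strong [SFinite μ] (hk : Ker μ ν k ρ K) {f : X → ℝ≥0} {m : X → ℂ} {B c : ℝ} (hB : 0 < B)
    (hc : 0 < c)
    (hf : Measurable f) (hm : Measurable m) (hm1 : ∀ x, ‖m x‖ ≤ 1) (hfin : ∫⁻ x, f x ∂μ ≠ ∞)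
    (hdec : Dec μ k ρ c B f m) {p : ℝ} (hp : 2 + c < p) :
      ∫⁻ ξ, ‖Top μ k (cm f m) ξ‖ₑ ^ p ∂ν ≤
        ENNReal.ofReal (p * ((2 + c) * (16 * K * (4 * B) ^ c)) * (4 ^ (p - 2 - c) / (p - 2 - c))) *
        (∫⁻ x, (f x : ℝ≥0∞) ^ (p / (p - 1 - c)) ∂μ) ^ (p - 1 - c) := by
  have hC : 0 < K := hk.pos
  have hp2 : 0 < p - 1 - c := by linarith
  have hp3 : 0 < p - 2 - c := by linarith
  set q : ℝ := p / (p - 1 - c) with hq
  have hq1 : 1 < q := by rw [hq, one_lt_div hp2]; linarith
  set W : ℝ := 16 * K * (4 * B) ^ c with hW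
  have hW0 : 0 < W := by positivity
  by_cases hAt : ∫⁻ x, (f x : ℝ≥0∞) ^ q ∂μ = ∞
  · rw [hAt, ENNReal.top_rpow_of_pos hp2, ENNReal.mul_top]
    · exact le_top
    · rw [ne_eq, ENNReal.ofReal_eq_zero, not_le]
      have : 0 < p := by linarith
      positivity
  set A : ℝ := (∫⁻ x, (f x : ℝ≥0∞) ^ q ∂μ).toReal with hA
  have hA0 : 0 ≤ A := ENNReal.toReal_nonneg
  have hAe : ∫⁻ x, (f x : ℝ≥0∞) ^ q ∂μ = ENNReal.ofReal A := (ENNReal.ofReal_toReal hAt).symm
  have hTm : Measurable (Top μ k (cm f m)) := Top_meas hk (cm_meas hf hm)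
  -- layer cake on the left
  have h1 := lintegral_rpow_eq_lintegral_meas_lt_mul (ν : Measure (Z))
    (f := fun ξ => ‖Top μ k (cm f m) ξ‖) (Filter.Eventually.of_forall fun x => norm_nonneg _)
    hTm.norm.aemeasurable (p := p) (by linarith)
  have e1 : ∫⁻ ξ, ‖Top μ k (cm f m) ξ‖ₑ ^ p ∂ν = ∫⁻ ξ, ENNReal.ofReal (‖Top μ k (cm f m) ξ‖ ^ p) ∂ν := by
    refine lintegral_congr fun ξ => ?_
    rw [← ENNReal.ofReal_rpow_of_nonneg (norm_nonneg _) (by linarith), ofReal_norm]
  rw [e1, h1]
  have hHm : Measurable fun z : ℝ × ℝ => ENNReal.ofReal (z.1 ^ (p - 3 - c)) *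
      (dst μ f z.2 * ind μ f z.1 z.2 * ENNReal.ofReal (z.2 ^ (1 + c))) := by
    refine Measurable.mul ?_ ((((dst_meas f).comp measurable_snd).mul (ind_meas f)).mul ?_)
    · exact (measurable_fst.pow_const _).ennreal_ofReal
    · exact (measurable_snd.pow_const _).ennreal_ofReal
  -- the layer cake for `A`
  have hAq : ENNReal.ofReal q * ∫⁻ t in Ioi (0 : ℝ), dst μ f t * ENNReal.ofReal (t ^ (q - 1)) =
      ENNReal.ofReal A := by
    have h2 := lintegral_rpow_eq_lintegral_meas_lt_mul μ
      (f := fun x => ((f x : ℝ≥0) : ℝ)) (Filter.Eventually.of_forall fun x => NNReal.coe_nonneg _)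
      (measurable_coe_nnreal_real.comp hf).aemeasurable (p := q) (by linarith)
    rw [← hAe]
    refine h2.symm.trans (lintegral_congr fun x => ?_)
    rw [← ENNReal.ofReal_rpow_of_nonneg (NNReal.coe_nonneg _) (by linarith), ENNReal.ofReal_coe_nnreal]
  have hAq' : ∫⁻ t in Ioi (0 : ℝ), dst μ f t * ENNReal.ofReal (t ^ (q - 1)) ≤ ENNReal.ofReal A := by
    rw [← hAq]
    refine le_mul_of_one_le_left zero_le ?_
    rw [← ENNReal.ofReal_one]
    exact ENNReal.ofReal_le_ofReal hq1.le
  calc ENNReal.ofReal p * ∫⁻ lam in Ioi (0 : ℝ), ν {ξ : Z | lam < ‖Top μ k (cm f m) ξ‖} *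
        ENNReal.ofReal (lam ^ (p - 1))
      ≤ ENNReal.ofReal p * ∫⁻ lam in Ioi (0 : ℝ), ENNReal.ofReal ((2 + c) * W) *
        ∫⁻ t in Ioi (0 : ℝ), ENNReal.ofReal (lam ^ (p - 3 - c)) *
          (dst μ f t * ind μ f lam t * ENNReal.ofReal (t ^ (1 + c))) := by
        gcongr ENNReal.ofReal p * ?_
        refine setLIntegral_mono' measurableSet_Ioi fun lam hlam => ?_
        have hl : (0 : ℝ) < lam := hlam
        obtain ⟨s, hs1, hs2⟩ := weak hk hB hc hf hm hm1 hfin hdec hl
        have h3 := cube f hf hc lam s hs1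
        have hmt : Measurable fun t : ℝ => dst μ f t * ind μ f lam t * ENNReal.ofReal (t ^ (1 + c)) := by
          refine ((dst_meas f).mul ((ind_meas f).comp (measurable_const.prodMk measurable_id))).mul ?_
          exact (measurable_id.pow_const _).ennreal_ofReal
        calc ν {ξ : Z | lam < ‖Top μ k (cm f m) ξ‖} * ENNReal.ofReal (lam ^ (p - 1))
            ≤ (ENNReal.ofReal (W / lam ^ (2 + c)) * (ENNReal.ofReal (2 + c) *
              ∫⁻ t in Ioi (0 : ℝ), dst μ f t * ind μ f lam t * ENNReal.ofReal (t ^ (1 + c)))) *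
              ENNReal.ofReal (lam ^ (p - 1)) := by
              gcongr ?_ * _
              exact hs2.trans (mul_le_mul' le_rfl h3)
          _ = (ENNReal.ofReal (W / lam ^ (2 + c)) * ENNReal.ofReal (2 + c) *
              ENNReal.ofReal (lam ^ (p - 1))) *
              ∫⁻ t in Ioi (0 : ℝ), dst μ f t * ind μ f lam t * ENNReal.ofReal (t ^ (1 + c)) := by ring
          _ = _ := by
              rw [lintegral_const_mul _ hmt, ← mul_assoc]
              congr 1
              rw [← ENNReal.ofReal_mul (by positivity), ← ENNReal.ofReal_mul (by positivity),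
                ← ENNReal.ofReal_mul (by positivity)]
              congr 1
              have h5 : lam ^ (p - 1) = lam ^ (p - 3 - c) * lam ^ (2 + c) := by
                rw [← Real.rpow_add hl]
                congr 1
                ring
              rw [h5]
              have h6 : 0 < lam ^ (2 + c) := by positivity
              field_simp
    _ = ENNReal.ofReal p * (ENNReal.ofReal ((2 + c) * W) * ∫⁻ t in Ioi (0 : ℝ),
        ∫⁻ lam in Ioi (0 : ℝ), ENNReal.ofReal (lam ^ (p - 3 - c)) *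
          (dst μ f t * ind μ f lam t * ENNReal.ofReal (t ^ (1 + c)))) := by
        rw [lintegral_const_mul _ hHm.lintegral_prod_right, lintegral_lintegral_swap hHm.aemeasurable]
    _ ≤ ENNReal.ofReal p * (ENNReal.ofReal ((2 + c) * W) * ∫⁻ t in Ioi (0 : ℝ),
        ENNReal.ofReal (4 ^ (p - 2 - c) / (p - 2 - c) * A ^ (p - 2 - c)) *
          (dst μ f t * ENNReal.ofReal (t ^ (q - 1)))) := by
        gcongr ENNReal.ofReal p * (ENNReal.ofReal ((2 + c) * W) * ?_)
        refine setLIntegral_mono' measurableSet_Ioi fun t ht => ?_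
        have ht0 : (0 : ℝ) < t := ht
        have hml : Measurable fun lam : ℝ => ENNReal.ofReal (lam ^ (p - 3 - c)) * ind μ f lam t :=
          (measurable_id.pow_const _).ennreal_ofReal.mul
            ((ind_meas f).comp (measurable_id.prodMk measurable_const))
        calc ∫⁻ lam in Ioi (0 : ℝ), ENNReal.ofReal (lam ^ (p - 3 - c)) *
              (dst μ f t * ind μ f lam t * ENNReal.ofReal (t ^ (1 + c)))
            = ∫⁻ lam in Ioi (0 : ℝ), (dst μ f t * ENNReal.ofReal (t ^ (1 + c))) *
              (ENNReal.ofReal (lam ^ (p - 3 - c)) * ind μ f lam t) := by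
              refine lintegral_congr fun lam => ?_
              ring
          _ = (dst μ f t * ENNReal.ofReal (t ^ (1 + c))) *
              ∫⁻ lam in Ioi (0 : ℝ), ENNReal.ofReal (lam ^ (p - 3 - c)) * ind μ f lam t :=
              lintegral_const_mul _ hml
          _ ≤ (dst μ f t * ENNReal.ofReal (t ^ (1 + c))) *
              ENNReal.ofReal (4 ^ (p - 2 - c) / (p - 2 - c) * (t ^ (1 - q) * A) ^ (p - 2 - c)) := by
              gcongr _ * ?_
              exact inner_lam hf hp hq1 hA0 hAe ht0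
          _ = dst μ f t * (ENNReal.ofReal (t ^ (1 + c)) *
              ENNReal.ofReal (4 ^ (p - 2 - c) / (p - 2 - c) * (t ^ (1 - q) * A) ^ (p - 2 - c))) := by ring
          _ = dst μ f t * (ENNReal.ofReal (4 ^ (p - 2 - c) / (p - 2 - c) * A ^ (p - 2 - c)) *
              ENNReal.ofReal (t ^ (q - 1))) := by
              congr 1
              rw [← ENNReal.ofReal_mul (by positivity), ← ENNReal.ofReal_mul (by positivity)]
              congr 1
              rw [Real.mul_rpow (by positivity) hA0, ← Real.rpow_mul ht0.le]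
              have h6 : t ^ (q - 1) = t ^ (1 + c) * t ^ ((1 - q) * (p - 2 - c)) := by
                rw [← Real.rpow_add ht0]
                congr 1
                have : q * (p - 1 - c) = p := by rw [hq]; field_simp
                linarith
              rw [h6]
              ring
          _ = _ := by ring
    _ = ENNReal.ofReal p * (ENNReal.ofReal ((2 + c) * W) *
        (ENNReal.ofReal (4 ^ (p - 2 - c) / (p - 2 - c) * A ^ (p - 2 - c)) *
          ∫⁻ t in Ioi (0 : ℝ), dst μ f t * ENNReal.ofReal (t ^ (q - 1)))) := by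
        rw [lintegral_const_mul]
        exact (dst_meas f).mul (measurable_id.pow_const _).ennreal_ofReal
    _ ≤ ENNReal.ofReal p * (ENNReal.ofReal ((2 + c) * W) *
        (ENNReal.ofReal (4 ^ (p - 2 - c) / (p - 2 - c) * A ^ (p - 2 - c)) * ENNReal.ofReal A)) := by
        gcongr
    _ ≤ _ := by
        have hp0 : 0 < p := by linarith
        have hpow : ENNReal.ofReal A ^ (p - 1 - c) = ENNReal.ofReal (A ^ (p - 1 - c)) :=
          ENNReal.ofReal_rpow_of_nonneg hA0 hp2.le
        rw [hAe, hpow, ← ENNReal.ofReal_mul (by positivity), ← ENNReal.ofReal_mul (by positivity),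
          ← ENNReal.ofReal_mul (by positivity), ← ENNReal.ofReal_mul (by positivity)]
        apply ENNReal.ofReal_le_ofReal
        have h7 : A ^ (p - 1 - c) = A ^ (p - 2 - c) * A := by
          rcases hA0.eq_or_lt with h0 | h0
          · rw [← h0, Real.zero_rpow hp2.ne', mul_zero]
          · have : p - 1 - c = (p - 2 - c) + 1 := by ring
            rw [this, Real.rpow_add h0, Real.rpow_one]
        rw [h7]
        apply le_of_eq
        ring

end Pool.Agent.V1172.GD
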