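import Pool.Agent.V1172.GP.Weak

set_option autoImplicit false

/-! Abstract level set estimates for oscillatory integrals: an `L²` bound on `{ρ < R}` growing like `R`
and the decay `ρ ^ (-1/c)` of the truncations give the weak type estimate with the exponent `2 + c`. -/

namespace Pool.Agent.V1172.GD

open MeasureTheory Set Metric Complex
open scoped ENNReal NNReal
open Pool.Agent.V1172.GP (Top Ker Lam cm cm_meas cm_norm cm_enorm cm_int0 Top_meas T_split T_enorm
  exists_level dyadic)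

variable {X Z : Type*} [MeasurableSpace X] [MeasurableSpace Z]

/-- decay of the truncations -/
def Dec (μ : Measure X) (k : Z → X → ℂ) (ρ : Z → ℝ) (c B : ℝ) (f : X → ℝ≥0) (m : X → ℂ) : Prop :=
  ∀ (s : ℝ≥0) (z : Z), 0 < ρ z → ‖Top μ k (cm (fun x => min (f x) s) m) z‖ ≤ B * s / ρ z ^ (1 / c)

variable {μ : Measure X} {ν : Measure Z} {k : Z → X → ℂ} {ρ : Z → ℝ} {A : ℝ}

/-- **The level set estimate.** -/
theorem weak [SFinite μ] (hk : Ker μ ν k ρ A) {f : X → ℝ≥0} {m : X → ℂ} {B c : ℝ} (hB : 0 < B)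
    (hc : 0 < c)
    (hf : Measurable f) (hm : Measurable m) (hm1 : ∀ x, ‖m x‖ ≤ 1) (hfin : ∫⁻ x, f x ∂μ ≠ ∞)
    (hdec : Dec μ k ρ c B f m) {lam : ℝ} (hlam : 0 < lam) : ∃ s : ℝ≥0,
      (∀ t < s, ENNReal.ofReal (lam / 4) < Lam μ f t) ∧
      ν {z | lam < ‖Top μ k (cm f m) z‖} ≤ ENNReal.ofReal (16 * A * (4 * B) ^ c / lam ^ (2 + c)) *
        ∫⁻ x, ((min (f x) s : ℝ≥0) : ℝ≥0∞) ^ (2 + c) ∂μ := by
  obtain ⟨s, hs1, hs2⟩ := exists_level hf hfin (ε := ENNReal.ofReal (lam / 4))
    (by rw [ENNReal.ofReal_pos]; positivity)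
  refine ⟨s, hs2, ?_⟩
  have hA := hk.pos
  set a : ℝ := lam / (4 * B) with ha
  have ha0 : 0 < a := by positivity
  set n : X → ℝ≥0 := fun x => min (f x) s with hn
  have hnm : Measurable n := hf.min measurable_const
  set sj : ℤ → ℝ≥0 := fun j => (a * ((2 : ℝ) ^ j) ^ (1 / c)).toNNReal with hsj
  have hsjc : ∀ j, (sj j : ℝ) = a * ((2 : ℝ) ^ j) ^ (1 / c) := fun j =>
    Real.coe_toNNReal _ (by positivity)
  set h : ℤ → X → ℝ≥0 := fun j x => n x - sj j with hh
  have hhm : ∀ j, Measurable (h j) := fun j => hnm.sub measurable_const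
  have hle : ∀ g : X → ℝ≥0, (∀ x, g x ≤ f x) → ∫⁻ x, g x ∂μ ≠ ∞ := fun g hg =>
    ne_top_of_le_ne_top hfin (lintegral_mono fun x => ENNReal.coe_le_coe.2 (hg x))
  have hhf : ∀ j, ∫⁻ x, h j x ∂μ ≠ ∞ := fun j =>
    hle _ fun x => tsub_le_self.trans (min_le_left _ _)
  set U : ℤ → Set Z := fun j => {z | ρ z < (2 : ℝ) ^ (j + 1)} with hU
  set D : ℤ → Set Z := fun j => {z | ENNReal.ofReal (lam / 2) ≤ ‖Top μ k (cm (h j) m) z‖ₑ} with hD
  -- pointwise
  have hsub : {z : Z | lam < ‖Top μ k (cm f m) z‖} ⊆ {z | ρ z = 0} ∪ ⋃ j, (U j ∩ D j) := by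
    intro z hz
    by_cases h0 : ρ z = 0
    · exact Or.inl h0
    have h0' : 0 < ρ z := lt_of_le_of_ne (hk.r0 z) (Ne.symm h0)
    right
    obtain ⟨j, hj1, hj2⟩ := exists_mem_Ico_zpow (y := (2 : ℝ)) (x := ρ z) h0' (by norm_num)
    refine mem_iUnion.2 ⟨j, hj2, ?_⟩
    have e1 : Top μ k (cm f m) z = Top μ k (cm n m) z + Top μ k (cm (fun x => f x - s) m) z := by
      refine T_split hk hnm (hf.sub measurable_const) hm hm1 (hle _ fun x => min_le_left _ _)
        (hle _ fun x => tsub_le_self) (fun x => ?_) z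
      simp only [hn]
      rw [add_comm]
      exact (tsub_add_min).symm
    have e2 : Top μ k (cm n m) z = Top μ k (cm (fun x => min (n x) (sj j)) m) z +
        Top μ k (cm (h j) m) z := by
      refine T_split hk (hnm.min measurable_const) (hhm j) hm hm1
        (hle _ fun x => (min_le_left _ _).trans (min_le_left _ _)) (hhf j) (fun x => ?_) z
      simp only [hh]
      rw [add_comm]
      exact (tsub_add_min).symm
    have b1 : ‖Top μ k (cm (fun x => f x - s) m) z‖ ≤ lam / 4 := by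
      have := (T_enorm hk (fun x => f x - s) hm1 z).trans hs1
      rw [← ofReal_norm] at this
      exact (ENNReal.ofReal_le_ofReal_iff (by positivity)).1 this
    have b2 : ‖Top μ k (cm (fun x => min (n x) (sj j)) m) z‖ ≤ lam / 4 := by
      have e3 : (fun x => min (n x) (sj j)) = fun x => min (f x) (min s (sj j)) := by
        ext x
        simp only [hn, min_assoc]
      rw [e3]
      refine (hdec _ z h0').trans ?_
      have h1 : ((min s (sj j) : ℝ≥0) : ℝ) ≤ a * ((2 : ℝ) ^ j) ^ (1 / c) := by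
        rw [← hsjc]; exact_mod_cast min_le_right _ _
      rw [div_le_iff₀ (by positivity)]
      calc B * ((min s (sj j) : ℝ≥0) : ℝ) ≤ B * (a * ((2 : ℝ) ^ j) ^ (1 / c)) := by gcongr
        _ = lam / 4 * ((2 : ℝ) ^ j) ^ (1 / c) := by rw [ha]; field_simp
        _ ≤ lam / 4 * ρ z ^ (1 / c) := by gcongr
    have hz' : lam < ‖Top μ k (cm f m) z‖ := hz
    rw [e1, e2] at hz'
    have h5 := norm_add_le (Top μ k (cm (fun x => min (n x) (sj j)) m) z + Top μ k (cm (h j) m) z)
      (Top μ k (cm (fun x => f x - s) m) z)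
    have h6 := norm_add_le (Top μ k (cm (fun x => min (n x) (sj j)) m) z) (Top μ k (cm (h j) m) z)
    show ENNReal.ofReal (lam / 2) ≤ ‖Top μ k (cm (h j) m) z‖ₑ
    rw [← ofReal_norm]
    apply ENNReal.ofReal_le_ofReal
    linarith
  -- one shell
  have hshell : ∀ j, ν (U j ∩ D j) ≤ ENNReal.ofReal (8 * A / lam ^ 2) *
      (ENNReal.ofReal ((2 : ℝ) ^ j) * ∫⁻ x, ((h j x : ℝ≥0) : ℝ≥0∞) ^ 2 ∂μ) := by
    intro j
    have h1 := hk.ah (cm (h j) m) (cm_meas (hhm j) hm) ⟨s, fun x => (cm_norm _ hm1 x).trans (by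
      exact_mod_cast (tsub_le_self.trans (min_le_right _ _) : h j x ≤ s))⟩
      (cm_int0 (hhm j) hm hm1 (hhf j)) ((2 : ℝ) ^ (j + 1)) (by positivity)
    have hUm : MeasurableSet (U j) := measurableSet_lt hk.rm measurable_const
    have h2 : ENNReal.ofReal (lam / 2) ^ 2 * ν (U j ∩ D j) ≤
        ∫⁻ x in U j, ‖Top μ k (cm (h j) m) x‖ₑ ^ 2 ∂ν := by
      have h3 := mul_meas_ge_le_lintegral₀ (μ := ν.restrict (U j))
        (f := fun x => ‖Top μ k (cm (h j) m) x‖ₑ ^ 2)
        ((Top_meas hk (cm_meas (hhm j) hm)).enorm.pow_const 2).aemeasurable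
        (ENNReal.ofReal (lam / 2) ^ 2)
      rw [Measure.restrict_apply' hUm] at h3
      refine le_trans (mul_le_mul' le_rfl (measure_mono ?_)) h3
      intro x hx
      refine ⟨?_, hx.1⟩
      have h9 : ENNReal.ofReal (lam / 2) ≤ ‖Top μ k (cm (h j) m) x‖ₑ := hx.2
      show ENNReal.ofReal (lam / 2) ^ 2 ≤ ‖Top μ k (cm (h j) m) x‖ₑ ^ 2
      gcongr
    have hl2 : ENNReal.ofReal (lam / 2) ^ 2 = ENNReal.ofReal (lam ^ 2 / 4) := by
      rw [← ENNReal.ofReal_pow (by positivity)]; congr 1; ring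
    have h4 : ν (U j ∩ D j) ≤ ENNReal.ofReal (4 / lam ^ 2) *
        (ENNReal.ofReal (lam / 2) ^ 2 * ν (U j ∩ D j)) := by
      rw [hl2, ← mul_assoc, ← ENNReal.ofReal_mul (by positivity)]
      have : 4 / lam ^ 2 * (lam ^ 2 / 4) = 1 := by field_simp
      rw [this, ENNReal.ofReal_one, one_mul]
    refine h4.trans ?_
    calc ENNReal.ofReal (4 / lam ^ 2) * (ENNReal.ofReal (lam / 2) ^ 2 * ν (U j ∩ D j))
        ≤ ENNReal.ofReal (4 / lam ^ 2) * (ENNReal.ofReal (A * (2 : ℝ) ^ (j + 1)) *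
          ∫⁻ w, ‖cm (h j) m w‖ₑ ^ 2 ∂μ) := mul_le_mul' le_rfl (h2.trans h1)
      _ ≤ ENNReal.ofReal (4 / lam ^ 2) * (ENNReal.ofReal (A * (2 : ℝ) ^ (j + 1)) *
          ∫⁻ w, ((h j w : ℝ≥0) : ℝ≥0∞) ^ 2 ∂μ) := by
          refine mul_le_mul' le_rfl (mul_le_mul' le_rfl (lintegral_mono fun w => ?_))
          have := cm_enorm (h j) hm1 w
          gcongr
      _ = _ := by
          rw [← mul_assoc, ← mul_assoc, ← ENNReal.ofReal_mul (by positivity),
            ← ENNReal.ofReal_mul (by positivity)]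
          congr 2
          rw [zpow_add_one₀ (by norm_num)]
          ring
  calc ν {z : Z | lam < ‖Top μ k (cm f m) z‖}
      ≤ ν ({z | ρ z = 0} ∪ ⋃ j, (U j ∩ D j)) := measure_mono hsub
    _ ≤ ν {z | ρ z = 0} + ∑' j, ν (U j ∩ D j) :=
        (measure_union_le _ _).trans (by gcongr; exact measure_iUnion_le _)
    _ = ∑' j, ν (U j ∩ D j) := by rw [hk.null, zero_add]
    _ ≤ ∑' j, ENNReal.ofReal (8 * A / lam ^ 2) *
        (ENNReal.ofReal ((2 : ℝ) ^ j) * ∫⁻ x, ((h j x : ℝ≥0) : ℝ≥0∞) ^ 2 ∂μ) :=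
        ENNReal.tsum_le_tsum hshell
    _ = ENNReal.ofReal (8 * A / lam ^ 2) * ∫⁻ x, ∑' j, ENNReal.ofReal ((2 : ℝ) ^ j) *
        ((h j x : ℝ≥0) : ℝ≥0∞) ^ 2 ∂μ := by
        rw [ENNReal.tsum_mul_left, lintegral_tsum]
        · congr 2
          ext j
          rw [lintegral_const_mul _ ((hhm j).coe_nnreal_ennreal.pow_const 2)]
        · intro j
          exact (((hhm j).coe_nnreal_ennreal.pow_const 2).const_mul _).aemeasurable
    _ ≤ ENNReal.ofReal (8 * A / lam ^ 2) * ∫⁻ x, ENNReal.ofReal (2 / a ^ c) *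
        ((n x : ℝ≥0) : ℝ≥0∞) ^ (2 + c) ∂μ := by
        refine mul_le_mul' le_rfl (lintegral_mono fun x => ?_)
        have hnx : (0 : ℝ) ≤ n x := NNReal.coe_nonneg _
        have hiff : ∀ j : ℤ, (n x : ℝ) ≤ a * ((2 : ℝ) ^ j) ^ (1 / c) ∨
            1 * (2 : ℝ) ^ j < ((n x : ℝ) / a) ^ c := by
          intro j
          by_contra hcon
          push Not at hcon
          obtain ⟨h1, h2⟩ := hcon
          rw [one_mul] at h2
          have h3 := Real.rpow_le_rpow (by positivity) h2 (by positivity : 0 ≤ 1 / c)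
          rw [← Real.rpow_mul (by positivity), mul_one_div_cancel hc.ne', Real.rpow_one,
            div_le_iff₀ ha0] at h3
          linarith
        calc ∑' j, ENNReal.ofReal ((2 : ℝ) ^ j) * ((h j x : ℝ≥0) : ℝ≥0∞) ^ 2
            ≤ ∑' j, (if 1 * (2 : ℝ) ^ j < ((n x : ℝ) / a) ^ c then ENNReal.ofReal ((2 : ℝ) ^ j) else 0) *
              ((n x : ℝ≥0) : ℝ≥0∞) ^ 2 := by
              refine ENNReal.tsum_le_tsum fun j => ?_
              by_cases hc' : 1 * (2 : ℝ) ^ j < ((n x : ℝ) / a) ^ c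
              · rw [if_pos hc']
                gcongr
                exact tsub_le_self
              · rw [if_neg hc']
                have h1 : (n x : ℝ) ≤ a * ((2 : ℝ) ^ j) ^ (1 / c) := (hiff j).resolve_right hc'
                have : h j x = 0 := by
                  simp only [hh]
                  apply tsub_eq_zero_of_le
                  rw [← hsjc] at h1
                  exact_mod_cast h1
                rw [this]
                simp
          _ = (∑' j : ℤ, (if 1 * (2 : ℝ) ^ j < ((n x : ℝ) / a) ^ c then ENNReal.ofReal ((2 : ℝ) ^ j) else 0)) *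
              ((n x : ℝ≥0) : ℝ≥0∞) ^ 2 := ENNReal.tsum_mul_right
          _ ≤ ENNReal.ofReal (2 * ((n x : ℝ) / a) ^ c / 1) * ((n x : ℝ≥0) : ℝ≥0∞) ^ 2 := by
              gcongr
              exact dyadic 1 _ one_pos (by positivity)
          _ = _ := by
              have e1 : 2 * ((n x : ℝ) / a) ^ c / 1 = 2 / a ^ c * (n x : ℝ) ^ c := by
                rw [Real.div_rpow hnx ha0.le]
                ring
              rw [e1, ENNReal.ofReal_mul (by positivity), ← ENNReal.ofReal_rpow_of_nonneg hnx hc.le,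
                ENNReal.ofReal_coe_nnreal, mul_assoc]
              congr 1
              rw [add_comm 2 c, ENNReal.rpow_add_of_nonneg _ _ hc.le (by norm_num)]
              congr 1
              norm_num
    _ = _ := by
        rw [lintegral_const_mul _ (hnm.coe_nnreal_ennreal.pow_const (2 + c)), ← mul_assoc,
          ← ENNReal.ofReal_mul (by positivity)]
        congr 2
        have e2 : a ^ c = lam ^ c / (4 * B) ^ c := by
          rw [ha, Real.div_rpow hlam.le (by positivity)]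
        rw [e2, Real.rpow_add hlam, Real.rpow_two]
        have h1 : (0 : ℝ) < (4 * B) ^ c := by positivity
        have h2 : (0 : ℝ) < lam ^ c := by positivity
        field_simp
        ring

end Pool.Agent.V1172.GD
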